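import Mathlib
import Pool.Agent.Y388.CF.Transversal

set_option autoImplicit false

/-!
# Tree-like gluing of three-coloured pieces with at most one vertex of the third colour
-/

namespace Pool.Agent.H752.CFGlue

open Pool.Agent.TH855 Pool.Agent.Y388.CF Classical Filter
open scoped ENNReal

/-- `K_{1,t,t}` is complete multipartite -/
theorem mp (L : Type) (x y z : Option (Bool × L)) (h : (apexGraph L).Adj x y) :
    z = x ∨ z = y ∨ (apexGraph L).Adj x z ∨ (apexGraph L).Adj y z := by
  rcases z with _ | r
  · rcases x with _ | p
    · left; rfl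
    · right; right; left
      exact (apexGraph_none L p).symm
  · rcases x with _ | p
    · right; right; left
      exact apexGraph_none L r
    · by_cases hpr : p.1 = r.1
      · right; right; right
        rcases y with _ | q
        · exact apexGraph_none L r
        · rw [apexGraph_some] at h ⊢
          intro hq
          exact h (hpr.trans hq.symm)
      · right; right; left
        rw [apexGraph_some]
        exact hpr

theorem main {W : Type} [Fintype W] (F : SimpleGraph W) (C : F.Coloring (Fin 3)) (k : ℕ)
    (hk : 1 ≤ k) (m : ℕ) (B : ℕ → Set W) (hcov : ∀ w, ∃ i < m, w ∈ B i)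
    (hedge : ∀ a b, F.Adj a b → ∃ i < m, a ∈ B i ∧ b ∈ B i)
    (hone : ∀ i < m, ∀ a ∈ B i, ∀ b ∈ B i, C a = 2 → C b = 2 → a = b)
    (hglue : ∀ i < m, 0 < i → ∃ j < i, (∀ l < i, B i ∩ B l ⊆ B j) ∧ (B i ∩ B j).ncard ≤ k ∧
      ((B i ∩ B j).ncard = k → k = 1 ∨ ∃ a ∈ B i ∩ B j, ∃ b ∈ B i ∩ B j, C a ≠ C b)) :
    c F ≤ k := by
  rcases isEmpty_or_nonempty W with hW | hW
  · refine (Pool.Agent.Y388.CF.c_empty F).trans ?_
    exact_mod_cast hk
  choose! par hp1 hp2 hp3 hp4 using hglue
  set bad : ℕ → Prop := fun i => 0 < i ∧ ¬ (B i ∩ B (par i)).Subsingleton ∧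
    ∀ a ∈ B i ∩ B (par i), ∀ b ∈ B i ∩ B (par i), C a = C b with hbad
  set side : ℕ → Bool := fun i => decide (∃ a ∈ B i ∩ B (par i), C a = 0) with hside
  set H := apexGraph (W ⊕ Fin m) with hH
  set π : W ⊕ Fin m → Option (Bool × (W ⊕ Fin m)) := Sum.elim
    (fun w => if C w = 2 then none else some (decide (C w = 0), Sum.inl w))
    (fun i => some (!(side i.1), Sum.inr i)) with hπ
  have hπ2 : ∀ w, C w = 2 → π (Sum.inl w) = none := fun w h => by
    simp only [hπ, Sum.elim_inl, if_pos h]
  have hπn : ∀ w, C w ≠ 2 → π (Sum.inl w) = some (decide (C w = 0), Sum.inl w) := fun w h => by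
    simp only [hπ, Sum.elim_inl, if_neg h]
  have hπr : ∀ i : Fin m, π (Sum.inr i) = some (!(side i.1), Sum.inr i) := fun i => by
    simp only [hπ, Sum.elim_inr]
  have hadj : ∀ a b : W, C a ≠ C b → H.Adj (π (Sum.inl a)) (π (Sum.inl b)) := by
    intro a b hab
    by_cases ha : C a = 2
    · have hb : C b ≠ 2 := fun h => hab (ha.trans h.symm)
      rw [hπ2 a ha, hπn b hb]
      exact apexGraph_none _ _
    · by_cases hb : C b = 2
      · rw [hπ2 b hb, hπn a ha]
        exact (apexGraph_none _ _).symm
      · rw [hπn a ha, hπn b hb, hH, apexGraph_some]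
        intro h
        rw [decide_eq_decide] at h
        have key : ∀ x y : Fin 3, x ≠ 2 → y ≠ 2 → x ≠ y → ¬ (x = 0 ↔ y = 0) := by decide
        exact key _ _ ha hb hab h
  set B' : ℕ → Set (W ⊕ Fin m) := fun l => {z | Sum.elim (fun w => w ∈ B l)
    (fun e : Fin m => l = e.1 ∨ (bad e.1 ∧ l = par e.1)) z} with hB'
  have hl : ∀ l w, (Sum.inl w : W ⊕ Fin m) ∈ B' l ↔ w ∈ B l := fun l w => Iff.rfl
  have hr : ∀ l (e : Fin m), (Sum.inr e : W ⊕ Fin m) ∈ B' l ↔
      (l = e.1 ∨ (bad e.1 ∧ l = par e.1)) := fun l e => Iff.rfl
  have hpb : ∀ e : Fin m, bad e.1 → par e.1 < e.1 := fun e he => hp1 e.1 e.2 he.1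
  have htg : TreeGlued (F ⊕g (⊥ : SimpleGraph (Fin m))) H k := by
    refine ⟨π, m, B', ?_, ?_, ?_, ?_, ?_⟩
    · rintro (a | a) (b | b) hab
      · exact hadj a b (C.valid (by simpa using hab))
      · exact absurd hab (by simp)
      · exact absurd hab (by simp)
      · exact absurd hab (by simp)
    · rintro (w | e)
      · obtain ⟨i, hi, hw⟩ := hcov w
        exact ⟨i, hi, hw⟩
      · exact ⟨e.1, e.2, Or.inl rfl⟩
    · rintro (a | a) (b | b) hab
      · obtain ⟨i, hi, h1, h2⟩ := hedge a b (by simpa using hab)
        exact ⟨i, hi, h1, h2⟩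
      · exact absurd hab (by simp)
      · exact absurd hab (by simp)
      · exact absurd hab (by simp)
    · rintro i hi (a | a) ha (b | b) hb hab
      · by_cases ha2 : C a = 2
        · by_cases hb2 : C b = 2
          · rw [hone i hi a ha b hb ha2 hb2]
          · rw [hπ2 a ha2, hπn b hb2] at hab
            exact absurd hab (by simp)
        · by_cases hb2 : C b = 2
          · rw [hπ2 b hb2, hπn a ha2] at hab
            exact absurd hab (by simp)
          · rw [hπn a ha2, hπn b hb2] at hab
            exact (Prod.ext_iff.1 (Option.some.inj hab)).2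
      · exfalso
        by_cases ha2 : C a = 2
        · rw [hπ2 a ha2, hπr] at hab
          exact absurd hab (by simp)
        · rw [hπn a ha2, hπr] at hab
          have := (Prod.ext_iff.1 (Option.some.inj hab)).2
          exact absurd this (by simp)
      · exfalso
        by_cases hb2 : C b = 2
        · rw [hπ2 b hb2, hπr] at hab
          exact absurd hab (by simp)
        · rw [hπn b hb2, hπr] at hab
          have := (Prod.ext_iff.1 (Option.some.inj hab)).2
          exact absurd this (by simp)
      · rw [hπr, hπr] at hab
        exact (Prod.ext_iff.1 (Option.some.inj hab)).2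
    · intro i hi
      rcases Nat.eq_zero_or_pos i with hi0 | hi0
      · left; intro l hl; omega
      · have hpi := hp1 i hi hi0
        by_cases hemp : B i ∩ B (par i) = ∅
        · left
          intro l hli
          rw [Set.disjoint_left]
          rintro (w | e) h1 h2
          · have h3 : w ∈ B i ∩ B (par i) := ⟨h1, hp2 i hi hi0 l hli ⟨h1, h2⟩⟩
            rw [hemp] at h3
            exact h3
          · rw [hr] at h1 h2
            rcases h1 with h1 | ⟨h1, h1'⟩
            · rcases h2 with h2 | ⟨h2, h2'⟩
              · omega
              · rw [← h1] at h2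
                exact h2.2.1 (by rw [hemp]; exact Set.subsingleton_empty)
            · have := hpb e h1
              rcases h2 with h2 | ⟨h2, h2'⟩ <;> omega
        · right
          refine ⟨par i, hpi, ?_, Or.inr ⟨?_, ?_⟩⟩
          · rintro l hli (w | e) ⟨h1, h2⟩
            · exact hp2 i hi hi0 l hli ⟨h1, h2⟩
            · rw [hr] at h1 h2 ⊢
              rcases h1 with h1 | ⟨h1, h1'⟩
              · rcases h2 with h2 | ⟨h2, h2'⟩
                · omega
                · right
                  exact ⟨h2, by rw [h1]⟩
              · have := hpb e h1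
                rcases h2 with h2 | ⟨h2, h2'⟩ <;> omega
          · -- the number of the vertices
            have hsub : ∀ z ∈ B' i ∩ B' (par i), (∃ w ∈ B i ∩ B (par i), z = Sum.inl w) ∨
                (bad i ∧ z = Sum.inr ⟨i, hi⟩) := by
              rintro (w | e) ⟨h1, h2⟩
              · left; exact ⟨w, ⟨h1, h2⟩, rfl⟩
              · right
                rw [hr] at h1 h2
                rcases h1 with h1 | ⟨h1, h1'⟩
                · rcases h2 with h2 | ⟨h2, h2'⟩
                  · omega
                  · rw [← h1] at h2
                    refine ⟨h2, ?_⟩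
                    congr 1
                    exact Fin.ext h1.symm
                · have := hpb e h1
                  rcases h2 with h2 | ⟨h2, h2'⟩ <;> omega
            by_cases hb : bad i
            · have h1 : B' i ∩ B' (par i) ⊆ insert (Sum.inr ⟨i, hi⟩)
                  (Sum.inl '' (B i ∩ B (par i))) := by
                intro z hz
                rcases hsub z hz with ⟨w, hw, rfl⟩ | ⟨_, rfl⟩
                · exact Set.mem_insert_of_mem _ ⟨w, hw, rfl⟩
                · exact Set.mem_insert _ _
              have h2 := Set.ncard_le_ncard h1 (Set.toFinite _)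
              have h3 := Set.ncard_insert_le (Sum.inr ⟨i, hi⟩ : W ⊕ Fin m)
                (Sum.inl '' (B i ∩ B (par i)))
              have h4 : ((Sum.inl '' (B i ∩ B (par i)) : Set (W ⊕ Fin m))).ncard ≤
                  (B i ∩ B (par i)).ncard := Set.ncard_image_le
              have h5 := hp3 i hi hi0
              have h6 : (B i ∩ B (par i)).ncard ≠ k := by
                intro h
                rcases hp4 i hi hi0 h with h7 | ⟨a, ha, b, hb', hab⟩
                · rw [h7] at h
                  apply hb.2.1
                  obtain ⟨x, hx⟩ := Set.ncard_eq_one.1 h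
                  rw [hx]
                  exact Set.subsingleton_singleton
                · exact hab (hb.2.2 a ha b hb')
              omega
            · have h1 : B' i ∩ B' (par i) ⊆ Sum.inl '' (B i ∩ B (par i)) := by
                intro z hz
                rcases hsub z hz with ⟨w, hw, rfl⟩ | ⟨h, _⟩
                · exact ⟨w, hw, rfl⟩
                · exact absurd h hb
              have h2 := Set.ncard_le_ncard h1 (Set.toFinite _)
              have h4 : ((Sum.inl '' (B i ∩ B (par i)) : Set (W ⊕ Fin m))).ncard ≤
                  (B i ∩ B (par i)).ncard := Set.ncard_image_le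
              have h5 := hp3 i hi hi0
              omega
          · -- connectivity
            obtain ⟨a₀, ha₀⟩ := Set.nonempty_iff_ne_empty.2 hemp
            have hmem : ∀ w ∈ B i ∩ B (par i), π (Sum.inl w) ∈ π '' (B' i ∩ B' (par i)) :=
              fun w hw => ⟨Sum.inl w, ⟨hw.1, hw.2⟩, rfl⟩
            by_cases hs : (B i ∩ B (par i)).Subsingleton
            · have hnb : ¬ bad i := fun h => h.2.1 hs
              have himg : π '' (B' i ∩ B' (par i)) = {π (Sum.inl a₀)} := by
                apply Set.eq_singleton_iff_unique_mem.2
                refine ⟨hmem a₀ ha₀, ?_⟩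
                rintro _ ⟨z, ⟨hz1, hz2⟩, rfl⟩
                rcases z with w | e
                · rw [hs ⟨hz1, hz2⟩ ha₀]
                · exfalso
                  rw [hr] at hz1 hz2
                  rcases hz1 with h1 | ⟨h1, h1'⟩
                  · rcases hz2 with h2 | ⟨h2, h2'⟩
                    · omega
                    · rw [← h1] at h2
                      exact hnb h2
                  · have := hpb e h1
                    rcases hz2 with h2 | ⟨h2, h2'⟩ <;> omega
              rw [himg]
              rw [SimpleGraph.connected_iff_exists_forall_reachable]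
              refine ⟨⟨π (Sum.inl a₀), rfl⟩, ?_⟩
              rintro ⟨z, hz⟩
              have hz' : z = π (Sum.inl a₀) := hz
              subst hz'
              rfl
            · by_cases hmono : ∀ a ∈ B i ∩ B (par i), ∀ b ∈ B i ∩ B (par i), C a = C b
              · have hb : bad i := ⟨hi0, hs, hmono⟩
                have hc2 : C a₀ ≠ 2 := by
                  intro h
                  apply hs
                  intro a ha b hb'
                  exact hone i hi a ha.1 b hb'.1 ((hmono a ha a₀ ha₀).trans h)
                    ((hmono b hb' a₀ ha₀).trans h)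
                have hsd : side i = decide (C a₀ = 0) := by
                  simp only [hside]
                  rw [decide_eq_decide]
                  constructor
                  · rintro ⟨a, ha, h⟩
                    exact (hmono a₀ ha₀ a ha).trans h
                  · intro h
                    exact ⟨a₀, ha₀, h⟩
                have he : π (Sum.inr ⟨i, hi⟩) ∈ π '' (B' i ∩ B' (par i)) :=
                  ⟨Sum.inr ⟨i, hi⟩, ⟨Or.inl rfl, Or.inr ⟨hb, rfl⟩⟩, rfl⟩
                have hab : H.Adj (π (Sum.inl a₀)) (π (Sum.inr ⟨i, hi⟩)) := by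
                  rw [hπn a₀ hc2, hπr, hH, apexGraph_some]
                  simp only [hsd]
                  cases decide (C a₀ = 0) <;> simp
                exact conn_of_pair H _ _ _ (hmem a₀ ha₀) he hab
                  (fun z _ => mp _ _ _ z hab)
              · push Not at hmono
                obtain ⟨a, ha, b, hb, hab⟩ := hmono
                exact conn_of_pair H _ _ _ (hmem a ha) (hmem b hb) (hadj a b hab)
                  (fun z _ => mp _ _ _ z (hadj a b hab))
  have h1 := treeGlued_bound _ H k (apexGraph_connected _) (card_apexGraph _) hk htg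
  have h2 : c F ≤ c (F ⊕g (⊥ : SimpleGraph (Fin m))) :=
    Pool.Agent.Y388.CF.c_mono ⟨⟨(SimpleGraph.Embedding.sumInl : F ↪g F ⊕g (⊥ : SimpleGraph (Fin m))).toHom,
      Sum.inl_injective⟩⟩
  refine h2.trans (h1.trans ?_)
  calc (k : ℝ≥0∞) * c H ≤ k * 1 := mul_le_mul_right (c_apexGraph _) _
    _ = k := mul_one _

end Pool.Agent.H752.CFGlue
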