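import Mathlib
import Pool.Agent.H752.CFGlue

set_option autoImplicit false

/-!
# Tree-like gluing of three-coloured pieces with few vertices outside one colour class
-/

namespace Pool.Agent.H752.CFGlue

open Pool.Agent.TH855 Pool.Agent.Y388.CF Classical Filter
open scoped ENNReal

/-- the colours of the vertices of the target -/
def kap (W : Type) (q : ℕ) : Option W ⊕ (Bool × Option (Fin q)) → Fin 3 :=
  Sum.elim (fun _ => 0) (fun p => if p.1 then 1 else 2)

/-- a complete tripartite graph with two small classes -/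
def tri (W : Type) (q : ℕ) : SimpleGraph (Option W ⊕ (Bool × Option (Fin q))) :=
  (⊤ : SimpleGraph (Fin 3)).comap (kap W q)

theorem tri_adj (W : Type) (q : ℕ) (a b : Option W ⊕ (Bool × Option (Fin q))) :
    (tri W q).Adj a b ↔ kap W q a ≠ kap W q b := by
  unfold tri
  rw [SimpleGraph.comap_adj, SimpleGraph.top_adj]

theorem tri_dom (W : Type) (q : ℕ) (u : Option W ⊕ (Bool × Option (Fin q))) :
    (tri W q).Adj (Sum.inl none) u ∨ (tri W q).Adj (Sum.inr (true, none)) u := by
  rw [tri_adj, tri_adj]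
  have h0 : kap W q (Sum.inl none) = 0 := rfl
  have h1 : kap W q (Sum.inr (true, none)) = 1 := rfl
  rw [h0, h1]
  have key : ∀ x : Fin 3, 0 ≠ x ∨ 1 ≠ x := by decide
  exact key _

theorem tri_01 (W : Type) (q : ℕ) :
    (tri W q).Adj (Sum.inl none) (Sum.inr (true, none)) := by
  rw [tri_adj]
  have h0 : kap W q (Sum.inl none) = 0 := rfl
  have h1 : kap W q (Sum.inr (true, none)) = 1 := rfl
  rw [h0, h1]
  decide

theorem tri_connected (W : Type) (q : ℕ) : (tri W q).Connected := by
  rw [SimpleGraph.connected_iff_exists_forall_reachable]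
  refine ⟨Sum.inl none, fun z => ?_⟩
  rcases tri_dom W q z with h | h
  · exact h.reachable
  · exact (tri_01 W q).reachable.trans h.reachable

theorem c_tri (W : Type) [Fintype W] (q : ℕ) : c (tri W q) ≤ ((2 * (q + 1) : ℕ) : ℝ≥0∞) := by
  refine three_colourable (tri W q) (SimpleGraph.Coloring.mk (kap W q) (fun {a b} h => by
    rwa [tri_adj] at h)) 0 (2 * (q + 1)) (by omega) ?_
  intro x hx
  have hx' : kap W q x = 0 := hx
  have h1 : (tri W q).neighborSet x ⊆ Set.range Sum.inr := by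
    rintro (y | y) hy
    · exfalso
      have h2 : (tri W q).Adj x (Sum.inl y) := hy
      rw [tri_adj, hx'] at h2
      exact h2 rfl
    · exact ⟨y, rfl⟩
  refine (Set.ncard_le_ncard h1 (Set.toFinite _)).trans ?_
  rw [← Set.image_univ]
  refine le_trans (Set.ncard_image_le (Set.toFinite _)) ?_
  rw [Set.ncard_univ, Nat.card_eq_fintype_card]
  simp [Fintype.card_prod, Fintype.card_option]

theorem mainB {W : Type} [Fintype W] (F : SimpleGraph W) (C : F.Coloring (Fin 3)) (k q : ℕ)
    (hq : 1 ≤ q) (m : ℕ) (B : ℕ → Set W) (hcov : ∀ w, ∃ i < m, w ∈ B i)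
    (hedge : ∀ a b, F.Adj a b → ∃ i < m, a ∈ B i ∧ b ∈ B i)
    (hfew : ∀ i < m, {w | w ∈ B i ∧ C w ≠ 0}.ncard ≤ q)
    (hglue : ∀ i < m, 0 < i → ∃ j < i, (∀ l < i, B i ∩ B l ⊆ B j) ∧
      (B i ⊆ B j ∨ (B i ∩ B j).ncard ≤ k)) :
    c F ≤ 2 * (k + 2) * (q + 1) := by
  rcases isEmpty_or_nonempty W with hW | hW
  · refine (Pool.Agent.Y388.CF.c_empty F).trans ?_
    exact_mod_cast (show 1 ≤ 2 * (k + 2) * (q + 1) by nlinarith)
  have hm : 0 < m := by
    obtain ⟨i, hi, -⟩ := hcov hW.some
    omega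
  obtain ⟨r, rfl⟩ : ∃ r, q = r + 1 := ⟨q - 1, by omega⟩
  obtain ⟨lab, hlab⟩ := tree_colour r m (fun i => {w | i < m ∧ w ∈ B i ∧ C w ≠ 0})
    (by
      intro i
      by_cases hi : i < m
      · refine le_trans (Set.ncard_le_ncard ?_ (Set.toFinite _)) (hfew i hi)
        rintro w ⟨_, h⟩
        exact h
      · have : {w | i < m ∧ w ∈ B i ∧ C w ≠ 0} = ∅ := by
          ext w
          simp [hi]
        rw [this, Set.ncard_empty]
        omega)
    (by
      intro n hn hn0
      obtain ⟨j, hj, hsub, _⟩ := hglue n hn hn0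
      refine ⟨j, hj, ?_⟩
      rintro l hl w ⟨h1, h2⟩
      exact ⟨by omega, hsub l hl ⟨h1.2.1, h2.2.1⟩, h1.2.2⟩)
  set π : W → Option W ⊕ (Bool × Option (Fin (r + 1))) := fun w =>
    if C w = 0 then Sum.inl (some w) else
      if C w = 1 then Sum.inr (true, some (lab w)) else Sum.inr (false, some (lab w)) with hπ
  have hπ0 : ∀ w, C w = 0 → π w = Sum.inl (some w) := fun w h => by simp only [hπ, if_pos h]
  have hπ1 : ∀ w, C w = 1 → π w = Sum.inr (true, some (lab w)) := fun w h => by
    have h0 : C w ≠ 0 := by rw [h]; decide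
    simp only [hπ, if_neg h0, if_pos h]
  have hπ2 : ∀ w, C w = 2 → π w = Sum.inr (false, some (lab w)) := fun w h => by
    have h0 : C w ≠ 0 := by rw [h]; decide
    have h1 : C w ≠ 1 := by rw [h]; decide
    simp only [hπ, if_neg h0, if_neg h1]
  have h012 : ∀ x : Fin 3, x = 0 ∨ x = 1 ∨ x = 2 := by decide
  have hkap : ∀ w, kap W (r + 1) (π w) = C w := by
    intro w
    rcases h012 (C w) with h | h | h
    · rw [hπ0 w h, h]; rfl
    · rw [hπ1 w h, h]; rfl
    · rw [hπ2 w h, h]; rfl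
  have htg := treeGlued_add F (tri W (r + 1)) k (Sum.inl none) (Sum.inr (true, none))
    (tri_01 W (r + 1)) (tri_dom W (r + 1)) π
    (by
      intro w
      rcases h012 (C w) with h | h | h
      · rw [hπ0 w h]; simp
      · rw [hπ1 w h]; simp
      · rw [hπ2 w h]; simp)
    (by
      intro w
      rcases h012 (C w) with h | h | h
      · rw [hπ0 w h]; simp
      · rw [hπ1 w h]; simp
      · rw [hπ2 w h]; simp)
    m B hm
    (by
      intro a b hab
      rw [tri_adj, hkap, hkap]
      exact C.valid hab)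
    hcov hedge
    (by
      intro i hi a ha b hb hab
      have hc : C a = C b := by rw [← hkap a, ← hkap b, hab]
      rcases h012 (C a) with h | h | h
      · rw [hπ0 a h, hπ0 b (hc ▸ h)] at hab
        exact Option.some.inj (Sum.inl.inj hab)
      · have h0 : C a ≠ 0 := by rw [h]; decide
        rw [hπ1 a h, hπ1 b (hc ▸ h)] at hab
        have h3 := Option.some.inj (Prod.ext_iff.1 (Sum.inr.inj hab)).2
        exact hlab i hi ⟨hi, ha, h0⟩ ⟨hi, hb, hc ▸ h0⟩ h3
      · have h0 : C a ≠ 0 := by rw [h]; decide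
        rw [hπ2 a h, hπ2 b (hc ▸ h)] at hab
        have h3 := Option.some.inj (Prod.ext_iff.1 (Sum.inr.inj hab)).2
        exact hlab i hi ⟨hi, ha, h0⟩ ⟨hi, hb, hc ▸ h0⟩ h3)
    hglue
  have h1 := c_le_of_add F (tri W (r + 1)) (k + 2) (tri_connected _ _) htg (by omega)
    (by
      rw [Fintype.card_sum, Fintype.card_option, Fintype.card_prod, Fintype.card_option,
        Fintype.card_bool, Fintype.card_fin]
      omega)
  refine h1.trans ?_
  calc ((k + 2 : ℕ) : ℝ≥0∞) * c (tri W (r + 1))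
      ≤ ((k + 2 : ℕ) : ℝ≥0∞) * ((2 * (r + 1 + 1) : ℕ) : ℝ≥0∞) := mul_le_mul_right (c_tri W (r + 1)) _
    _ = 2 * (k + 2) * (((r + 1 : ℕ) : ℝ≥0∞) + 1) := by push_cast; ring

theorem mainTW {W : Type} [Fintype W] (F : SimpleGraph W) (hC : F.Colorable 3) (t : ℕ)
    (h : TreewidthLe F t) : c F ≤ 2 * (t + 2) ^ 2 := by
  obtain ⟨C⟩ := hC
  obtain ⟨I, _, T, B, hT, hcard, hedge, hconn⟩ := h
  obtain ⟨e, he, hord⟩ := tree_order T hT B (fun w => (hconn w).preconnected)
  have h1 := mainB F C t (t + 1) (by omega) (Fintype.card I) (fun n => B (e n))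
    (by
      intro w
      obtain ⟨i, hi⟩ := (hconn w).nonempty
      obtain ⟨n, hn, hni⟩ := he i
      exact ⟨n, hn, by rw [hni]; exact hi⟩)
    (by
      intro a b hab
      obtain ⟨i, hi⟩ := hedge a b hab
      obtain ⟨n, hn, hni⟩ := he i
      exact ⟨n, hn, by rw [hni]; exact hi⟩)
    (by
      intro i hi
      refine le_trans (Set.ncard_le_ncard ?_ (Set.toFinite _)) (hcard (e i))
      rintro w ⟨hw, _⟩
      exact hw)
    (by
      intro i hi hi0
      obtain ⟨j, hj, hsub⟩ := hord i hi hi0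
      refine ⟨j, hj, hsub, ?_⟩
      by_cases hBB : B (e i) ⊆ B (e j)
      · left; exact hBB
      · right
        have h1 : B (e i) ∩ B (e j) ⊂ B (e i) :=
          ⟨Set.inter_subset_left, fun h => hBB (fun w hw => (h hw).2)⟩
        have h2 := Set.ncard_lt_ncard h1 (Set.toFinite _)
        have h3 := hcard (e i)
        show (B (e i) ∩ B (e j)).ncard ≤ t
        omega)
  refine h1.trans (le_of_eq ?_)
  push_cast
  ring

end Pool.Agent.H752.CFGlue
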