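import Mathlib
import Pool.Agent.H752.CFGlue

set_option autoImplicit false

/-!
# Tree-like gluing of pieces whose vertices of the third colour have small degree, except for one
-/

namespace Pool.Agent.H752.CFGlue

open Pool.Agent.TH855 Pool.Agent.Y388.CF Classical Filter
open scoped ENNReal

section Target

variable {W L : Type}

/-- which vertices of the bipartite part are adjacent to a vertex of the third class -/
def good (N : W → W → Prop) : Option W → (W ⊕ L) → Prop
  | none, _ => True
  | some _, Sum.inr _ => True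
  | some x, Sum.inl y => N x y

/-- the target graph -/
def tgt (L : Type) (N : W → W → Prop) : SimpleGraph ((Bool × (W ⊕ L)) ⊕ Option W) where
  Adj a b := match a, b with
    | Sum.inl p, Sum.inl q => p.1 ≠ q.1
    | Sum.inl p, Sum.inr x => good N x p.2
    | Sum.inr x, Sum.inl p => good N x p.2
    | Sum.inr _, Sum.inr _ => False
  symm := ⟨by
    rintro (a | a) (b | b) h
    · exact Ne.symm h
    · exact h
    · exact h
    · exact h⟩
  loopless := ⟨by
    rintro (a | a) h
    · exact h rfl
    · exact h⟩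

/-- the colours of the target graph -/
def kol (L : Type) (N : W → W → Prop) : (tgt L N).Coloring (Fin 3) :=
  SimpleGraph.Coloring.mk (Sum.elim (fun p => if p.1 then 0 else 1) (fun _ => 2)) (by
    rintro (a | a) (b | b) h
    · have h' : a.1 ≠ b.1 := h
      simp only [Sum.elim_inl]
      cases ha : a.1 <;> cases hb : b.1 <;> simp_all
    · simp only [Sum.elim_inl, Sum.elim_inr]
      cases a.1 <;> simp
    · simp only [Sum.elim_inl, Sum.elim_inr]
      cases b.1 <;> simp
    · exact absurd h (fun h => h))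

theorem c_tgt [Fintype W] [Fintype L] (l₀ : L) (N : W → W → Prop) (d : ℕ)
    (hN : ∀ x, {y | N x y}.ncard ≤ d) :
    c (tgt L N) ≤ ((2 * (Fintype.card L + d) : ℕ) : ℝ≥0∞) := by
  have hL : 0 < Fintype.card L := Fintype.card_pos_iff.2 ⟨l₀⟩
  obtain ⟨n, ⟨e⟩⟩ := Finite.exists_equiv_fin W
  -- the pieces
  set P : ℕ → Set ((Bool × (W ⊕ L)) ⊕ Option W) := fun i => {z | (i = 0 ∧ (∀ x, z ≠ Sum.inr (some x))) ∨
    ∃ x : W, i = (e x).1 + 1 ∧ (z = Sum.inr (some x) ∨ ∃ p, z = Sum.inl p ∧ good N (some x) p.2)}
    with hP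
  have hP0 : ∀ z, z ∈ P 0 ↔ ∀ x, z ≠ Sum.inr (some x) := by
    intro z
    constructor
    · rintro (⟨_, h⟩ | ⟨x, h, _⟩)
      · exact h
      · omega
    · intro h
      exact Or.inl ⟨rfl, h⟩
  have hPx : ∀ (x : W) z, z ∈ P ((e x).1 + 1) ↔
      (z = Sum.inr (some x) ∨ ∃ p, z = Sum.inl p ∧ good N (some x) p.2) := by
    intro x z
    constructor
    · rintro (⟨h, _⟩ | ⟨y, h, h'⟩)
      · omega
      · have hxy : e x = e y := Fin.ext (by omega)
        rw [e.injective hxy]
        exact h'
    · intro h
      exact Or.inr ⟨x, rfl, h⟩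
  have hex : ∀ i < n + 1, 0 < i → ∃ x : W, i = (e x).1 + 1 := by
    intro i hi hi0
    refine ⟨e.symm ⟨i - 1, by omega⟩, ?_⟩
    rw [Equiv.apply_symm_apply]
    show i = i - 1 + 1
    omega
  refine main (tgt L N) (kol L N) (2 * (Fintype.card L + d)) (by omega) (n + 1) P ?_ ?_ ?_ ?_
  · rintro (p | x)
    · exact ⟨0, by omega, (hP0 _).2 (by simp)⟩
    · rcases x with _ | x
      · exact ⟨0, by omega, (hP0 _).2 (by simp)⟩
      · exact ⟨(e x).1 + 1, by have := (e x).2; omega, (hPx x _).2 (Or.inl rfl)⟩
  · rintro (a | a) (b | b) h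
    · exact ⟨0, by omega, (hP0 _).2 (by simp), (hP0 _).2 (by simp)⟩
    · rcases b with _ | x
      · exact ⟨0, by omega, (hP0 _).2 (by simp), (hP0 _).2 (by simp)⟩
      · exact ⟨(e x).1 + 1, by have := (e x).2; omega, (hPx x _).2 (Or.inr ⟨a, rfl, h⟩),
          (hPx x _).2 (Or.inl rfl)⟩
    · rcases a with _ | x
      · exact ⟨0, by omega, (hP0 _).2 (by simp), (hP0 _).2 (by simp)⟩
      · exact ⟨(e x).1 + 1, by have := (e x).2; omega, (hPx x _).2 (Or.inl rfl),
          (hPx x _).2 (Or.inr ⟨b, rfl, h⟩)⟩
    · exact absurd h (fun h => h)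
  · -- at most one vertex of the third colour
    have hk2 : ∀ p : Bool × (W ⊕ L), kol L N (Sum.inl p) ≠ 2 := by
      intro p
      show (if p.1 then (0 : Fin 3) else 1) ≠ 2
      cases p.1 <;> simp
    intro i hi a ha b hb ha2 hb2
    rcases a with p | x
    · exact absurd ha2 (hk2 p)
    · rcases b with p | y
      · exact absurd hb2 (hk2 p)
      · rcases Nat.eq_zero_or_pos i with h0 | h0
        · rw [h0, hP0] at ha hb
          rcases x with _ | x
          · rcases y with _ | y
            · rfl
            · exact absurd rfl (hb y)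
          · exact absurd rfl (ha x)
        · obtain ⟨w, rfl⟩ := hex i hi h0
          rw [hPx] at ha hb
          rcases ha with ha | ⟨p, ha, _⟩
          · rcases hb with hb | ⟨p, hb, _⟩
            · rw [ha, hb]
            · exact absurd hb (by simp)
          · exact absurd ha (by simp)
  · intro i hi h0
    obtain ⟨w, rfl⟩ := hex i hi h0
    refine ⟨0, by omega, ?_, ?_, ?_⟩
    · intro l hl z hz
      rcases Nat.eq_zero_or_pos l with hl0 | hl0
      · rw [hl0] at hz; exact hz.2
      · obtain ⟨v, rfl⟩ := hex l (by omega) hl0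
        obtain ⟨h1, h2⟩ := hz
        rw [hPx] at h1 h2
        rw [hP0]
        rintro x rfl
        rcases h1 with h1 | ⟨p, h1, _⟩
        · rcases h2 with h2 | ⟨p, h2, _⟩
          · have h3 : w = v := by
              rw [h1] at h2
              exact Option.some.inj (Sum.inr.inj h2)
            rw [h3] at hl
            omega
          · exact absurd h2 (by simp)
        · exact absurd h1 (by simp)
    · have h1 : P ((e w).1 + 1) ∩ P 0 ⊆ (fun p => Sum.inl p) ''
          ((Set.univ : Set Bool) ×ˢ ((Sum.inr '' (Set.univ : Set L)) ∪ (Sum.inl '' {y | N w y}) :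
            Set (W ⊕ L))) := by
        rintro z ⟨hz1, hz2⟩
        rw [hPx] at hz1
        rw [hP0] at hz2
        rcases hz1 with rfl | ⟨p, rfl, hp⟩
        · exact absurd rfl (hz2 w)
        · refine ⟨p, ⟨Set.mem_univ _, ?_⟩, rfl⟩
          rcases p with ⟨s, y | l⟩
          · right
            exact ⟨y, hp, rfl⟩
          · left
            exact ⟨l, Set.mem_univ _, rfl⟩
      refine (Set.ncard_le_ncard h1 (Set.toFinite _)).trans ?_
      refine le_trans (Set.ncard_image_le (Set.toFinite _)) ?_
      rw [Set.ncard_prod]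
      have h2 : (Set.univ : Set Bool).ncard = 2 := by
        rw [Set.ncard_univ, Nat.card_eq_fintype_card, Fintype.card_bool]
      rw [h2]
      apply Nat.mul_le_mul_left
      refine (Set.ncard_union_le _ _).trans ?_
      apply add_le_add
      · refine le_trans (Set.ncard_image_le (Set.toFinite _)) ?_
        rw [Set.ncard_univ, Nat.card_eq_fintype_card]
      · exact le_trans (Set.ncard_image_le (Set.toFinite _)) (hN w)
    · intro _
      right
      refine ⟨Sum.inl (true, Sum.inr l₀), ⟨(hPx w _).2 (Or.inr ⟨_, rfl, trivial⟩),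
        (hP0 _).2 (by simp)⟩, Sum.inl (false, Sum.inr l₀),
        ⟨(hPx w _).2 (Or.inr ⟨_, rfl, trivial⟩), (hP0 _).2 (by simp)⟩, ?_⟩
      show (if (true : Bool) = true then (0 : Fin 3) else 1) ≠ (if (false : Bool) = true then (0 : Fin 3) else 1)
      decide

end Target

theorem mainE {W : Type} [Fintype W] (F : SimpleGraph W) (C : F.Coloring (Fin 3)) (Y : Set W)
    (k d : ℕ) (m : ℕ) (B : ℕ → Set W) (hcov : ∀ w, ∃ i < m, w ∈ B i)
    (hedge : ∀ a b, F.Adj a b → ∃ i < m, a ∈ B i ∧ b ∈ B i)
    (hone : ∀ i < m, ∀ a ∈ B i, ∀ b ∈ B i, a ∈ Y → b ∈ Y → a = b)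
    (hdeg : ∀ i < m, ∀ a ∈ B i, C a = 2 → a ∉ Y → {b | b ∈ B i ∧ F.Adj a b}.ncard ≤ d)
    (hglue : ∀ i < m, 0 < i → ∃ j < i, (∀ l < i, B i ∩ B l ⊆ B j) ∧ (B i ∩ B j).ncard ≤ k) :
    c F ≤ 2 * (k + 2) * ((k + 1) * (d + 1) + 1) := by
  rcases isEmpty_or_nonempty W with hW | hW
  · refine (Pool.Agent.Y388.CF.c_empty F).trans ?_
    exact_mod_cast (show 1 ≤ 2 * (k + 2) * ((k + 1) * (d + 1) + 1) from
      Nat.succ_le_of_lt (by positivity))
  have hm : 0 < m := by
    obtain ⟨i, hi, -⟩ := hcov hW.some
    omega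
  -- the first piece that contains a vertex
  set f : W → ℕ := fun w => Nat.find (hcov w) with hf
  have hf1 : ∀ w, f w < m := fun w => (Nat.find_spec (hcov w)).1
  have hf2 : ∀ w, w ∈ B (f w) := fun w => (Nat.find_spec (hcov w)).2
  have hf3 : ∀ w i, i < m → w ∈ B i → f w ≤ i := fun w i hi hw => Nat.find_min' (hcov w) ⟨hi, hw⟩
  have hfe : ∀ a b, F.Adj a b → f a ≤ f b → a ∈ B (f b) := by
    intro a b hab hle
    have hex : ∃ l, l < m ∧ a ∈ B l ∧ b ∈ B l := by
      obtain ⟨l, hl, h1, h2⟩ := hedge a b hab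
      exact ⟨l, hl, h1, h2⟩
    obtain ⟨h1, h2, h3⟩ := Nat.find_spec hex
    have h4 := hf3 b _ h1 h3
    rcases Nat.lt_or_ge (f b) (Nat.find hex) with h5 | h5
    · exfalso
      obtain ⟨j, hj, hsub, _⟩ := hglue _ h1 (by omega)
      exact Nat.find_min hex hj ⟨by omega, hsub _ (by omega) ⟨h2, hf2 a⟩, hsub _ h5 ⟨h3, hf2 b⟩⟩
    · have h6 : Nat.find hex = f b := le_antisymm h5 h4
      rw [h6] at h2
      exact h2
  -- the vertices that are adjacent to an older vertex of the third class
  set Q : Set W := {y | C y ≠ 2 ∧ ∃ x, C x = 2 ∧ x ∉ Y ∧ F.Adj x y ∧ f x < f y} with hQ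
  have hcount : ∀ i < m, {w | w ∈ B i ∧ w ∈ Q}.ncard ≤ k * (d + 1) := by
    intro i hi
    rcases Nat.eq_zero_or_pos i with h0 | h0
    · have : {w | w ∈ B i ∧ w ∈ Q} = ∅ := by
        ext w
        simp only [Set.mem_ofPred_eq, Set.mem_empty_iff_false, iff_false]
        rintro ⟨h1, _, x, _, _, _, h2⟩
        have := hf3 w i hi h1
        omega
      rw [this, Set.ncard_empty]
      omega
    · obtain ⟨j, hj, hsub, hrim⟩ := hglue i hi h0
      set R : Finset W := Finset.univ.filter (fun w => w ∈ B i ∧ w ∈ B j) with hR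
      set N : W → Finset W := fun x => Finset.univ.filter (fun b => b ∈ B i ∧ F.Adj x b) with hN
      have hRc : R.card ≤ k := by
        refine le_trans (le_of_eq ?_) hrim
        rw [← Set.ncard_coe_finset]
        congr 1
        ext w
        simp [hR]
      have h1 : {w | w ∈ B i ∧ w ∈ Q} ⊆
          ((R ∪ (R.filter (fun x => C x = 2 ∧ x ∉ Y)).biUnion N : Finset W) : Set W) := by
        rintro y ⟨hy, _, x, hx2, hxY, hxy, hlt⟩
        rw [Finset.mem_coe, Finset.mem_union]
        have hyi := hf3 y i hi hy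
        rcases Nat.lt_or_ge (f y) i with h2 | h2
        · left
          rw [hR, Finset.mem_filter]
          exact ⟨Finset.mem_univ _, hy, hsub _ h2 ⟨hy, hf2 y⟩⟩
        · right
          have h3 : f y = i := le_antisymm hyi h2
          have h4 : x ∈ B i := by rw [← h3]; exact hfe x y hxy hlt.le
          rw [Finset.mem_biUnion]
          refine ⟨x, ?_, ?_⟩
          · rw [Finset.mem_filter, hR, Finset.mem_filter]
            exact ⟨⟨Finset.mem_univ _, h4, hsub (f x) (by omega) ⟨h4, hf2 x⟩⟩, hx2, hxY⟩
          · rw [hN, Finset.mem_filter]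
            exact ⟨Finset.mem_univ _, hy, hxy⟩
      have h2 := Set.ncard_le_ncard h1 (Set.toFinite _)
      rw [Set.ncard_coe_finset] at h2
      refine h2.trans ((Finset.card_union_le _ _).trans ?_)
      have h3 : ((R.filter (fun x => C x = 2 ∧ x ∉ Y)).biUnion N).card ≤
          (R.filter (fun x => C x = 2 ∧ x ∉ Y)).card * d := by
        refine Finset.card_biUnion_le_card_mul _ _ _ ?_
        intro x hx
        rw [Finset.mem_filter, hR, Finset.mem_filter] at hx
        have h4 := hdeg i hi x hx.1.2.1 hx.2.1 hx.2.2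
        refine le_trans (le_of_eq ?_) h4
        rw [← Set.ncard_coe_finset]
        congr 1
        ext w
        simp [hN]
      have h4 : (R.filter (fun x => C x = 2 ∧ x ∉ Y)).card ≤ R.card := Finset.card_filter_le _ _
      calc R.card + ((R.filter (fun x => C x = 2 ∧ x ∉ Y)).biUnion N).card
          ≤ k + k * d := add_le_add hRc (h3.trans (Nat.mul_le_mul_right d (h4.trans hRc)))
        _ = k * (d + 1) := by ring
  obtain ⟨lab, hlab⟩ := tree_colour (k * (d + 1)) m (fun i => {w | i < m ∧ w ∈ B i ∧ w ∈ Q})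
    (by
      intro i
      by_cases hi : i < m
      · refine le_trans (Set.ncard_le_ncard ?_ (Set.toFinite _)) ((hcount i hi).trans (by omega))
        rintro w ⟨_, h⟩
        exact h
      · have : {w | i < m ∧ w ∈ B i ∧ w ∈ Q} = ∅ := by
          ext w
          simp [hi]
        rw [this, Set.ncard_empty]
        omega)
    (by
      intro n hn hn0
      obtain ⟨j, hj, hsub, _⟩ := hglue n hn hn0
      refine ⟨j, hj, ?_⟩
      rintro l hl w ⟨h1, h2⟩
      exact ⟨by omega, hsub l hl ⟨h1.2.1, h2.2.1⟩, h1.2.2⟩)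
  -- the target
  set N : W → W → Prop := fun x y => C x = 2 ∧ x ∉ Y ∧ F.Adj x y ∧ y ∈ B (f x) with hN
  have hNd : ∀ x, {y | N x y}.ncard ≤ d := by
    intro x
    by_cases hx : C x = 2 ∧ x ∉ Y
    · refine le_trans (Set.ncard_le_ncard ?_ (Set.toFinite _))
        (hdeg (f x) (hf1 x) x (hf2 x) hx.1 hx.2)
      rintro y ⟨_, _, h1, h2⟩
      exact ⟨h2, h1⟩
    · have : {y | N x y} = ∅ := by
        ext y
        simp only [Set.mem_ofPred_eq, Set.mem_empty_iff_false, iff_false]
        rintro ⟨h1, h2, _⟩
        exact hx ⟨h1, h2⟩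
      rw [this, Set.ncard_empty]
      omega
  set L := Option (Fin (k * (d + 1) + 1)) with hL
  set H := tgt L N with hH
  set π : W → (Bool × (W ⊕ L)) ⊕ Option W := fun w =>
    if C w = 2 then (if w ∈ Y then Sum.inr none else Sum.inr (some w)) else
      Sum.inl (decide (C w = 0), if w ∈ Q then Sum.inr (some (lab w)) else Sum.inl w) with hπ
  have hπY : ∀ w, C w = 2 → w ∈ Y → π w = Sum.inr none := fun w h h' => by
    simp only [hπ, if_pos h, if_pos h']
  have hπX : ∀ w, C w = 2 → w ∉ Y → π w = Sum.inr (some w) := fun w h h' => by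
    simp only [hπ, if_pos h, if_neg h']
  have hπQ : ∀ w, C w ≠ 2 → w ∈ Q → π w = Sum.inl (decide (C w = 0), Sum.inr (some (lab w))) :=
    fun w h h' => by simp only [hπ, if_neg h, if_pos h']
  have hπN : ∀ w, C w ≠ 2 → w ∉ Q → π w = Sum.inl (decide (C w = 0), Sum.inl w) :=
    fun w h h' => by simp only [hπ, if_neg h, if_neg h']
  have hπb : ∀ w, C w ≠ 2 → ∃ l, π w = Sum.inl (decide (C w = 0), l) ∧ l ≠ Sum.inr none := by
    intro w h
    by_cases h' : w ∈ Q
    · exact ⟨_, hπQ w h h', by simp⟩
    · exact ⟨_, hπN w h h', by simp⟩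
  have hxy : ∀ x y, C x = 2 → F.Adj x y → H.Adj (π x) (π y) := by
    intro x y hx hab
    have hy : C y ≠ 2 := fun h => C.valid hab (hx.trans h.symm)
    by_cases hxY : x ∈ Y
    · obtain ⟨l, hl, _⟩ := hπb y hy
      rw [hπY x hx hxY, hl]
      exact trivial
    · rw [hπX x hx hxY]
      by_cases hyQ : y ∈ Q
      · rw [hπQ y hy hyQ]
        exact trivial
      · rw [hπN y hy hyQ]
        have h1 : f y ≤ f x := by
          by_contra h
          exact hyQ ⟨hy, x, hx, hxY, hab, by omega⟩
        exact (⟨hx, hxY, hab, hfe y x hab.symm h1⟩ : N x y)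
  have hhom : ∀ a b, F.Adj a b → H.Adj (π a) (π b) := by
    intro a b hab
    by_cases ha : C a = 2
    · exact hxy a b ha hab
    · by_cases hb : C b = 2
      · exact (hxy b a hb hab.symm).symm
      · obtain ⟨l, hl, _⟩ := hπb a ha
        obtain ⟨l', hl', _⟩ := hπb b hb
        rw [hl, hl']
        have key : ∀ x y : Fin 3, x ≠ 2 → y ≠ 2 → x ≠ y → ¬ (x = 0 ↔ y = 0) := by decide
        have h3 : decide (C a = 0) ≠ decide (C b = 0) := by
          intro h
          rw [decide_eq_decide] at h
          exact key _ _ ha hb (C.valid hab) h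
        exact h3
  have h01 : H.Adj (Sum.inl (false, Sum.inr none)) (Sum.inl (true, Sum.inr none)) := by
    show false ≠ true
    decide
  have hdom : ∀ u, H.Adj (Sum.inl (false, Sum.inr none)) u ∨
      H.Adj (Sum.inl (true, Sum.inr none)) u := by
    rintro (⟨s, l⟩ | x)
    · cases s
      · right
        show true ≠ false
        decide
      · left
        show false ≠ true
        decide
    · left
      rcases x with _ | x
      · exact trivial
      · exact trivial
  have hcard : 1 < Fintype.card ((Bool × (W ⊕ L)) ⊕ Option W) := by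
    rw [Fintype.card_sum, Fintype.card_option]
    have : 0 < Fintype.card (Bool × (W ⊕ L)) :=
      Fintype.card_pos_iff.2 ⟨(true, Sum.inr none)⟩
    omega
  have hconn : H.Connected := by
    rw [SimpleGraph.connected_iff_exists_forall_reachable]
    refine ⟨Sum.inl (false, Sum.inr none), fun z => ?_⟩
    rcases hdom z with h | h
    · exact h.reachable
    · exact h01.reachable.trans h.reachable
  have htg := treeGlued_add F H k _ _ h01 hdom π
    (by
      intro w
      by_cases h : C w = 2
      · by_cases h' : w ∈ Y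
        · rw [hπY w h h']; simp
        · rw [hπX w h h']; simp
      · obtain ⟨l, hl, hl'⟩ := hπb w h
        rw [hl]
        intro h2
        exact hl' (Prod.ext_iff.1 (Sum.inl.inj h2)).2)
    (by
      intro w
      by_cases h : C w = 2
      · by_cases h' : w ∈ Y
        · rw [hπY w h h']; simp
        · rw [hπX w h h']; simp
      · obtain ⟨l, hl, hl'⟩ := hπb w h
        rw [hl]
        intro h2
        exact hl' (Prod.ext_iff.1 (Sum.inl.inj h2)).2)
    m B hm hhom hcov hedge
    (by
      intro i hi a ha b hb hab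
      by_cases hca : C a = 2
      · by_cases hcb : C b = 2
        · by_cases haY : a ∈ Y
          · by_cases hbY : b ∈ Y
            · exact hone i hi a ha b hb haY hbY
            · rw [hπY a hca haY, hπX b hcb hbY] at hab
              exact absurd hab (by simp)
          · by_cases hbY : b ∈ Y
            · rw [hπX a hca haY, hπY b hcb hbY] at hab
              exact absurd hab (by simp)
            · rw [hπX a hca haY, hπX b hcb hbY] at hab
              exact Option.some.inj (Sum.inr.inj hab)
        · exfalso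
          obtain ⟨l, hl, _⟩ := hπb b hcb
          rw [hl] at hab
          by_cases haY : a ∈ Y
          · rw [hπY a hca haY] at hab
            exact absurd hab (by simp)
          · rw [hπX a hca haY] at hab
            exact absurd hab (by simp)
      · by_cases hcb : C b = 2
        · exfalso
          obtain ⟨l, hl, _⟩ := hπb a hca
          rw [hl] at hab
          by_cases hbY : b ∈ Y
          · rw [hπY b hcb hbY] at hab
            exact absurd hab (by simp)
          · rw [hπX b hcb hbY] at hab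
            exact absurd hab (by simp)
        · by_cases haQ : a ∈ Q
          · by_cases hbQ : b ∈ Q
            · rw [hπQ a hca haQ, hπQ b hcb hbQ] at hab
              have h3 := (Prod.ext_iff.1 (Sum.inl.inj hab)).2
              have h4 := Option.some.inj (Sum.inr.inj h3)
              exact hlab i hi ⟨hi, ha, haQ⟩ ⟨hi, hb, hbQ⟩ h4
            · rw [hπQ a hca haQ, hπN b hcb hbQ] at hab
              have h3 := (Prod.ext_iff.1 (Sum.inl.inj hab)).2
              exact absurd h3 (by simp)
          · by_cases hbQ : b ∈ Q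
            · rw [hπN a hca haQ, hπQ b hcb hbQ] at hab
              have h3 := (Prod.ext_iff.1 (Sum.inl.inj hab)).2
              exact absurd h3 (by simp)
            · rw [hπN a hca haQ, hπN b hcb hbQ] at hab
              have h3 := (Prod.ext_iff.1 (Sum.inl.inj hab)).2
              exact Sum.inl.inj h3)
    (by
      intro i hi hi0
      obtain ⟨j, hj, hsub, hrim⟩ := hglue i hi hi0
      exact ⟨j, hj, hsub, Or.inr hrim⟩)
  have h1 := c_le_of_add F H (k + 2) hconn htg (by omega) hcard
  have h2 : c H ≤ ((2 * ((k * (d + 1) + 2) + d) : ℕ) : ℝ≥0∞) := by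
    have h3 := c_tgt (L := L) none N d hNd
    have hLc : Fintype.card L = k * (d + 1) + 2 := by
      show Fintype.card (Option (Fin (k * (d + 1) + 1))) = _
      rw [Fintype.card_option, Fintype.card_fin]
    rwa [hLc] at h3
  refine h1.trans ?_
  calc ((k + 2 : ℕ) : ℝ≥0∞) * c H
      ≤ ((k + 2 : ℕ) : ℝ≥0∞) * ((2 * ((k * (d + 1) + 2) + d) : ℕ) : ℝ≥0∞) := mul_le_mul_right h2 _
    _ = 2 * (k + 2) * ((k + 1) * (d + 1) + 1) := by push_cast; ring

end Pool.Agent.H752.CFGlue
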