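import Mathlib

namespace Pool.Agent.Results.MP_cb1d9b_co.StarRecursion

open Finset Filter Topology

/-- `F → (G)^v_r`: every colouring of the vertices of `F` with `r` colours has a monochromatic
copy of `G`, not necessarily induced. -/
def Arrows {V W : Type} (F : SimpleGraph V) (G : SimpleGraph W) (r : ℕ) : Prop :=
  ∀ c : V → Fin r, ∃ f : W → V, Function.Injective f ∧
    (∀ a b, G.Adj a b → F.Adj (f a) (f b)) ∧ ∀ a b, c (f a) = c (f b)

/-- The maximum average degree: the largest `2 |E(H)| / |V(H)|` over the subgraphs `H` of `F`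
with at least one vertex. -/
noncomputable def mad {V : Type} (F : SimpleGraph V) : ℝ :=
  sSup {x : ℝ | ∃ H : F.Subgraph, H.verts.Nonempty ∧
    x = 2 * (H.edgeSet.ncard : ℝ) / (H.verts.ncard : ℝ)}

/-- `m_cr(G, r)`: the infimum of `mad F` over the finite graphs `F` with `F → (G)^v_r`. -/
noncomputable def mcr {W : Type} (G : SimpleGraph W) (r : ℕ) : ℝ :=
  sInf {x : ℝ | ∃ (n : ℕ) (F : SimpleGraph (Fin n)), Arrows F G r ∧ x = mad F}

/-- The star `S_k` with `k` edges: the vertex `0` is joined to the `k` other vertices. -/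
def star (k : ℕ) : SimpleGraph (Fin (k + 1)) where
  Adj a b := a ≠ b ∧ (a = 0 ∨ b = 0)
  symm := ⟨fun _ _ h => ⟨h.1.symm, h.2.symm⟩⟩
  loopless := ⟨fun _ h => h.1 rfl⟩

section Orient

set_option linter.unusedSectionVars false

variable {V : Type} [Fintype V] [DecidableEq V]

/-- The fractional orientations of a graph: every edge is split between its two ends. -/
def Ori (G : SimpleGraph V) : Set (V → V → ℝ) :=
  {x | (∀ u v, 0 ≤ x u v) ∧ (∀ u v, ¬ G.Adj u v → x u v = 0) ∧
    (∀ u v, G.Adj u v → x u v + x v u = 1)}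

lemma ori_le_one {G : SimpleGraph V} {x : V → V → ℝ} (hx : x ∈ Ori G) (u v : V) :
    x u v ≤ 1 := by
  obtain ⟨h0, h1, h2⟩ := hx
  by_cases h : G.Adj u v
  · have := h2 u v h
    have := h0 v u
    linarith
  · rw [h1 u v h]; norm_num

lemma isClosed_ori (G : SimpleGraph V) : IsClosed (Ori G) := by
  have e : Ori G = {x | ∀ u v, 0 ≤ x u v} ∩ ({x | ∀ u v, ¬ G.Adj u v → x u v = 0} ∩
      {x | ∀ u v, G.Adj u v → x u v + x v u = 1}) := by
    ext x; simp [Ori]
  rw [e]
  refine IsClosed.inter ?_ (IsClosed.inter ?_ ?_)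
  · simp only [Set.ofPred_forall]
    refine isClosed_iInter fun u => isClosed_iInter fun v => ?_
    exact isClosed_le continuous_const (by fun_prop)
  · simp only [Set.ofPred_forall]
    refine isClosed_iInter fun u => isClosed_iInter fun v => isClosed_iInter fun _ => ?_
    exact isClosed_eq (by fun_prop) continuous_const
  · simp only [Set.ofPred_forall]
    refine isClosed_iInter fun u => isClosed_iInter fun v => isClosed_iInter fun _ => ?_
    exact isClosed_eq (by fun_prop) continuous_const

lemma isCompact_ori (G : SimpleGraph V) : IsCompact (Ori G) := by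
  have hc : IsCompact (Set.pi Set.univ fun _ : V => Set.pi Set.univ fun _ : V =>
      Set.Icc (0 : ℝ) 1) :=
    isCompact_univ_pi fun _ => isCompact_univ_pi fun _ => isCompact_Icc
  refine hc.of_isClosed_subset (isClosed_ori G) ?_
  intro x hx
  simp only [Set.mem_pi, Set.mem_univ, forall_true_left, Set.mem_Icc]
  exact fun u v => ⟨hx.1 u v, ori_le_one hx u v⟩

lemma ori_nonempty (G : SimpleGraph V) : (Ori G).Nonempty := by
  classical
  refine ⟨fun u v => if G.Adj u v then 1 / 2 else 0, ?_, ?_, ?_⟩
  · intro u v; dsimp only; split_ifs <;> norm_num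
  · intro u v h; simp [h]
  · intro u v h
    have h' : G.Adj v u := h.symm
    simp [h, h']; norm_num

/-- Shifting an orientation along an antisymmetric direction. -/
def shift (x : V → V → ℝ) (n : V → V → ℝ) (ε : ℝ) : V → V → ℝ :=
  fun a b => x a b - ε * (n a b - n b a)

lemma shift_mem {G : SimpleGraph V} {x : V → V → ℝ} (hx : x ∈ Ori G) (n : V → V → ℝ)
    (hn : ∀ a b, ¬ G.Adj a b → n a b = 0) (ε : ℝ)
    (hpos : ∀ a b, 0 ≤ shift x n ε a b) : shift x n ε ∈ Ori G := by
  refine ⟨hpos, ?_, ?_⟩
  · intro a b h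
    have h' : ¬ G.Adj b a := fun h'' => h h''.symm
    simp [shift, hx.2.1 a b h, hn a b h, hn b a h']
  · intro a b h
    have := hx.2.2 a b h
    simp only [shift]; linarith

/-- A fractional orientation with all outflows at most the density. -/
lemma exists_ori_out (G : SimpleGraph V) (lam : ℝ)
    (hlam : ∀ W : Finset V, ∀ x ∈ Ori G, ∑ u ∈ W, ∑ v ∈ W, x u v ≤ lam * (#W : ℝ)) :
    ∃ x ∈ Ori G, ∀ u, ∑ v, x u v ≤ lam := by
  have hcont : Continuous fun x : V → V → ℝ => ∑ u, (∑ v, x u v) ^ 2 := by fun_prop
  obtain ⟨x, hx, hmin⟩ := (isCompact_ori G).exists_isMinOn (ori_nonempty G) hcont.continuousOn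
  refine ⟨x, hx, ?_⟩
  set o : V → ℝ := fun u => ∑ v, x u v with ho
  -- the exchange property
  have hex : ∀ u v, 0 < x u v → o u ≤ o v := by
    intro u v huv
    by_contra hlt
    push Not at hlt
    have hadj : G.Adj u v := by
      by_contra h
      rw [hx.2.1 u v h] at huv
      exact lt_irrefl _ huv
    have hne : u ≠ v := hadj.ne
    set ε : ℝ := min (x u v) ((o u - o v) / 2) with hε
    have hε0 : 0 < ε := lt_min huv (by linarith)
    have hε1 : ε ≤ x u v := min_le_left _ _
    have hε2 : ε ≤ (o u - o v) / 2 := min_le_right _ _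
    set n : V → V → ℝ := fun a b => if a = u ∧ b = v then 1 else 0 with hn
    have hmem : shift x n ε ∈ Ori G := by
      refine shift_mem hx n ?_ ε ?_
      · intro a b h
        simp only [hn]
        rw [if_neg]
        rintro ⟨rfl, rfl⟩
        exact h hadj
      · intro a b
        simp only [shift, hn]
        have h0 := hx.1 a b
        by_cases h1 : a = u ∧ b = v
        · have h2 : ¬ (b = u ∧ a = v) := by
            rintro ⟨h3, h4⟩
            exact hne (h1.1.symm.trans h4)
          rw [if_pos h1, if_neg h2, h1.1, h1.2]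
          linarith
        · rw [if_neg h1]
          split_ifs <;> linarith
    have hout : ∀ a, ∑ b, shift x n ε a b
        = o a - ε * ((if a = u then 1 else 0) - (if a = v then 1 else 0)) := by
      intro a
      simp only [shift, hn, Finset.sum_sub_distrib, ← Finset.mul_sum, ho]
      have e1 : ∑ b, (if a = u ∧ b = v then (1 : ℝ) else 0) = if a = u then 1 else 0 := by
        by_cases h : a = u <;> simp [h]
      have e2 : ∑ b, (if b = u ∧ a = v then (1 : ℝ) else 0) = if a = v then 1 else 0 := by
        by_cases h : a = v <;> simp [h]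
      rw [e1, e2]
    have hmin' := hmin hmem
    simp only [Set.mem_ofPred_eq] at hmin'
    have hQ : ∑ a, (∑ b, shift x n ε a b) ^ 2
        = ∑ a, (o a) ^ 2 - 2 * ε * (o u - o v) + 2 * ε ^ 2 := by
      have e : ∀ a, (∑ b, shift x n ε a b) ^ 2 = (o a) ^ 2
          - 2 * ε * ((if a = u then o a else 0) - (if a = v then o a else 0))
          + ε ^ 2 * ((if a = u then 1 else 0) + (if a = v then 1 else 0)) := by
        intro a
        rw [hout a]
        by_cases h1 : a = u
        · have h2 : a ≠ v := fun h => hne (h1.symm.trans h)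
          rw [if_pos h1, if_neg h2, if_pos h1, if_neg h2]
          ring
        · by_cases h2 : a = v
          · rw [if_neg h1, if_pos h2, if_neg h1, if_pos h2]
            ring
          · rw [if_neg h1, if_neg h2, if_neg h1, if_neg h2]
            ring
      rw [Finset.sum_congr rfl fun a _ => e a]
      simp only [Finset.sum_add_distrib, Finset.sum_sub_distrib, ← Finset.mul_sum,
        Finset.sum_ite_eq', Finset.mem_univ, if_true]
      ring
    have h3 : ∑ a, (∑ b, x a b) ^ 2 = ∑ a, (o a) ^ 2 := rfl
    rw [h3, hQ] at hmin'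
    nlinarith
  -- the maximum
  intro u0
  have hne : (Finset.univ : Finset V).Nonempty := ⟨u0, Finset.mem_univ _⟩
  obtain ⟨m, -, hm⟩ := Finset.exists_max_image Finset.univ o hne
  set W : Finset V := Finset.univ.filter fun u => o u = o m with hW
  have hmW : m ∈ W := by simp [hW]
  have hzero : ∀ u ∈ W, ∀ v, v ∉ W → x u v = 0 := by
    intro u hu v hv
    by_contra h
    have hpos : 0 < x u v := lt_of_le_of_ne (hx.1 u v) (Ne.symm h)
    have h1 := hex u v hpos
    have h2 : o u = o m := by simpa [hW] using hu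
    have h3 := hm v (Finset.mem_univ _)
    exact hv (by simp [hW]; linarith)
  have hsum : ∑ u ∈ W, o u = ∑ u ∈ W, ∑ v ∈ W, x u v := by
    refine Finset.sum_congr rfl fun u hu => ?_
    rw [ho]
    symm
    exact Finset.sum_subset (Finset.subset_univ W) fun v _ hv => hzero u hu v hv
  have hsum2 : ∑ u ∈ W, o u = (#W : ℝ) * o m := by
    rw [Finset.sum_congr rfl (g := fun _ => o m) (fun u hu => by simpa [hW] using hu)]
    simp
  have hWpos : (0 : ℝ) < #W := by exact_mod_cast Finset.card_pos.mpr ⟨m, hmW⟩
  have h5 := hlam W x hx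
  rw [← hsum, hsum2] at h5
  have h6 : o m ≤ lam := by
    by_contra h
    push Not at h
    nlinarith
  exact (hm u0 (Finset.mem_univ _)).trans h6


/-- The part of an orientation above the threshold `1 - th`. -/
def pen (th : ℝ) (x : V → V → ℝ) : ℝ := ∑ u, ∑ v, max 0 (x u v - (1 - th))

/-- From reachability along arcs with flow above `th` we get a unit flow of walk type. -/
lemma reach_flow (x : V → V → ℝ) (th : ℝ) {v u : V}
    (h : Relation.ReflTransGen (fun a b => th < x a b) v u) :
    ∃ n : V → V → ℝ, (∀ a b, 0 ≤ n a b) ∧ (∀ a b, n a b ≠ 0 → th < x a b) ∧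
      ∀ a, ∑ b, (n a b - n b a) = (if a = v then 1 else 0) - (if a = u then 1 else 0) := by
  induction h with
  | refl => exact ⟨fun _ _ => 0, fun _ _ => le_rfl, fun _ _ h => absurd rfl h, fun a => by simp⟩
  | @tail w u' hvw hwu ih =>
    obtain ⟨n, h0, h1, h2⟩ := ih
    refine ⟨fun a b => n a b + if a = w ∧ b = u' then 1 else 0, ?_, ?_, ?_⟩
    · intro a b
      have := h0 a b
      dsimp only
      split_ifs <;> linarith
    · intro a b hab
      by_cases h : a = w ∧ b = u'
      · rw [h.1, h.2]; exact hwu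
      · dsimp only at hab
        rw [if_neg h, add_zero] at hab
        exact h1 a b hab
    · intro a
      have e1 : ∑ b, (if a = w ∧ b = u' then (1 : ℝ) else 0) = if a = w then 1 else 0 := by
        by_cases h : a = w <;> simp [h]
      have e2 : ∑ b, (if b = w ∧ a = u' then (1 : ℝ) else 0) = if a = u' then 1 else 0 := by
        by_cases h : a = u' <;> simp [h]
      have e3 : ∑ b, ((n a b + if a = w ∧ b = u' then (1 : ℝ) else 0)
          - (n b a + if b = w ∧ a = u' then (1 : ℝ) else 0))
          = ∑ b, (n a b - n b a) + (∑ b, (if a = w ∧ b = u' then (1 : ℝ) else 0)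
            - ∑ b, (if b = w ∧ a = u' then (1 : ℝ) else 0)) := by
        rw [← Finset.sum_sub_distrib, ← Finset.sum_add_distrib]
        exact Finset.sum_congr rfl fun b _ => by ring
      rw [e3, e1, e2, h2 a]
      ring

/-- An orientation with small outflows and no arc above `1 - th` on a closed walk of arcs
above `th`. -/
lemma exists_ori_acyclic (G : SimpleGraph V) (lam th : ℝ) (hth0 : 0 ≤ th) (hth : th ≤ 1 / 2)
    (hex : ∃ x ∈ Ori G, ∀ u, ∑ v, x u v ≤ lam) :
    ∃ x ∈ Ori G, (∀ u, ∑ v, x u v ≤ lam) ∧
      ∀ u v, 1 - th < x u v → ¬ Relation.ReflTransGen (fun a b => th < x a b) v u := by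
  have hcont : Continuous fun x : V → V → ℝ => pen th x := by unfold pen; fun_prop
  have hcl : IsClosed {x : V → V → ℝ | ∀ u, ∑ v, x u v ≤ lam} := by
    simp only [Set.ofPred_forall]
    exact isClosed_iInter fun u => isClosed_le (by fun_prop) continuous_const
  have hcomp : IsCompact (Ori G ∩ {x : V → V → ℝ | ∀ u, ∑ v, x u v ≤ lam}) :=
    (isCompact_ori G).inter_right hcl
  obtain ⟨x0, hx0, hx0'⟩ := hex
  obtain ⟨x, ⟨hx, hxo⟩, hmin⟩ := hcomp.exists_isMinOn ⟨x0, hx0, hx0'⟩ hcont.continuousOn
  refine ⟨x, hx, hxo, ?_⟩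
  intro u v huv hreach
  obtain ⟨n, hn0, hn1, hn2⟩ := reach_flow x th hreach
  have hadjof : ∀ a b, th < x a b → G.Adj a b := by
    intro a b hab
    by_contra h
    rw [hx.2.1 a b h] at hab
    linarith
  have hadj : G.Adj u v := hadjof u v (by linarith)
  set m : V → V → ℝ := fun a b => n a b + if a = u ∧ b = v then 1 else 0 with hm
  have hm0 : ∀ a b, 0 ≤ m a b := by
    intro a b
    have := hn0 a b
    simp only [hm]
    split_ifs <;> linarith
  have hm1 : ∀ a b, m a b ≠ 0 → th < x a b := by
    intro a b hab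
    by_cases h : a = u ∧ b = v
    · rw [h.1, h.2]; linarith
    · simp only [hm] at hab
      rw [if_neg h, add_zero] at hab
      exact hn1 a b hab
  have hm2 : ∀ a, ∑ b, (m a b - m b a) = 0 := by
    intro a
    have e1 : ∑ b, (if a = u ∧ b = v then (1 : ℝ) else 0) = if a = u then 1 else 0 := by
      by_cases h : a = u <;> simp [h]
    have e2 : ∑ b, (if b = u ∧ a = v then (1 : ℝ) else 0) = if a = v then 1 else 0 := by
      by_cases h : a = v <;> simp [h]
    have e3 : ∑ b, (m a b - m b a)
        = ∑ b, (n a b - n b a) + (∑ b, (if a = u ∧ b = v then (1 : ℝ) else 0)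
          - ∑ b, (if b = u ∧ a = v then (1 : ℝ) else 0)) := by
      rw [← Finset.sum_sub_distrib, ← Finset.sum_add_distrib]
      exact Finset.sum_congr rfl fun b _ => by simp only [hm]; ring
    rw [e3, e1, e2, hn2 a]
    ring
  have hmuv : 1 ≤ m u v := by
    have := hn0 u v
    simp only [hm, and_self, if_true]
    linarith
  have hmvu : m v u = 0 := by
    by_contra h
    have h1 := hm1 v u h
    have h2 := hx.2.2 u v hadj
    linarith
  -- small shifts keep all constraints
  have hsmall : ∀ᶠ ε in 𝓝[>] (0 : ℝ), ∀ a b, (th < x a b → th ≤ x a b - ε * m a b) := by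
    rw [Filter.eventually_all]
    intro a
    rw [Filter.eventually_all]
    intro b
    by_cases h : th < x a b
    · have hc : Continuous fun ε : ℝ => x a b - ε * m a b := by fun_prop
      have h1 : Tendsto (fun ε : ℝ => x a b - ε * m a b) (𝓝[>] 0) (𝓝 (x a b)) := by
        have := (hc.tendsto 0).mono_left (nhdsWithin_le_nhds (s := Set.Ioi (0 : ℝ)))
        simpa using this
      filter_upwards [h1.eventually (lt_mem_nhds h)] with ε hε _
      exact hε.le
    · exact Filter.Eventually.of_forall fun ε h' => absurd h' h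
  have hpos : ∀ᶠ ε in 𝓝[>] (0 : ℝ), (0 : ℝ) < ε := eventually_mem_nhdsWithin
  obtain ⟨ε, hε1, hε0⟩ := (hsmall.and hpos).exists
  have hmem : shift x m ε ∈ Ori G := by
    refine shift_mem hx m ?_ ε ?_
    · intro a b h
      by_contra h'
      exact h (hadjof a b (hm1 a b h'))
    · intro a b
      simp only [shift]
      have h0 := hx.1 a b
      have hb := hm0 b a
      by_cases h : m a b = 0
      · rw [h]; nlinarith
      · have h1 := hε1 a b (hm1 a b h)
        nlinarith
  have hout : ∀ a, ∑ b, shift x m ε a b ≤ lam := by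
    intro a
    have e : ∑ b, shift x m ε a b = ∑ b, x a b - ε * ∑ b, (m a b - m b a) := by
      simp only [shift]
      rw [Finset.sum_sub_distrib, Finset.mul_sum]
    rw [e, hm2 a]
    simpa using hxo a
  have hmin' : pen th x ≤ pen th (shift x m ε) := hmin ⟨hmem, hout⟩
  have hle : ∀ a b, max 0 (shift x m ε a b - (1 - th)) ≤ max 0 (x a b - (1 - th)) := by
    intro a b
    simp only [shift]
    have ha := hm0 a b
    by_cases h : m b a = 0
    · apply max_le_max le_rfl
      rw [h]; nlinarith
    · have h1 := hε1 b a (hm1 b a h)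
      have hadj' : G.Adj b a := hadjof b a (hm1 b a h)
      have h2 := hx.2.2 b a hadj'
      have h3 : x a b - ε * (m a b - m b a) - (1 - th) ≤ 0 := by nlinarith
      rw [max_eq_left h3]
      exact le_max_left _ _
  have hlt : max 0 (shift x m ε u v - (1 - th)) < max 0 (x u v - (1 - th)) := by
    simp only [shift, hmvu]
    rw [max_eq_right (by linarith : (0 : ℝ) ≤ x u v - (1 - th))]
    apply max_lt
    · linarith
    · nlinarith
  have : pen th (shift x m ε) < pen th x := by
    unfold pen
    apply Finset.sum_lt_sum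
    · intro a _
      exact Finset.sum_le_sum fun b _ => hle a b
    · exact ⟨u, Finset.mem_univ _, Finset.sum_lt_sum (fun b _ => hle u b)
        ⟨v, Finset.mem_univ _, hlt⟩⟩
  linarith

/-- The removal lemma on a vertex set `A`. -/
lemma removal (G : SimpleGraph V) (k : ℕ) (hk : 1 ≤ k) (th : ℝ) (hth : th = 1 / ((k : ℝ) + 1))
    (x : V → V → ℝ) (hx : x ∈ Ori G)
    (hnc : ∀ u v, 1 - th < x u v → ¬ Relation.ReflTransGen (fun a b => th < x a b) v u) :
    ∀ (N : ℕ) (A : Finset V), #A ≤ N → ∃ S ⊆ A,
      (∀ v ∈ S, ∀ T ⊆ S, (∀ u ∈ T, G.Adj v u) → #T ≤ k - 1) ∧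
      ∀ v ∈ A, v ∉ S → (k : ℝ) / (k + 1) ≤ ∑ u ∈ S, x v u := by
  classical
  have hk1 : (0 : ℝ) < (k : ℝ) + 1 := by positivity
  have hth1 : (k : ℝ) / (k + 1) = 1 - th := by rw [hth]; field_simp; ring
  intro N
  induction N with
  | zero =>
    intro A hA
    have : A = ∅ := by simpa using hA
    subst this
    exact ⟨∅, by simp, by simp, by simp⟩
  | succ N ih =>
    intro A hA
    by_cases hAe : A = ∅
    · subst hAe
      exact ⟨∅, by simp, by simp, by simp⟩
    have hAne : A.Nonempty := Finset.nonempty_iff_ne_empty.mpr hAe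
    -- reachability inside `A`
    let D : V → V → Prop := fun a b => a ∈ A ∧ b ∈ A ∧ th < x a b
    let R : V → Finset V := fun a => A.filter fun b => Relation.ReflTransGen D a b
    obtain ⟨a0, ha0, hmin⟩ := Finset.exists_min_image A (fun a => #(R a)) hAne
    set C : Finset V := R a0 with hC
    have ha0C : a0 ∈ C := by
      simp only [hC, R, Finset.mem_filter]
      exact ⟨ha0, Relation.ReflTransGen.refl⟩
    have hCA : C ⊆ A := Finset.filter_subset _ _
    have hRsub : ∀ b ∈ C, R b ⊆ C := by
      intro b hb c hc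
      simp only [hC, R, Finset.mem_filter] at hb hc ⊢
      exact ⟨hc.1, hb.2.trans hc.2⟩
    have hReq : ∀ b ∈ C, R b = C := fun b hb =>
      Finset.eq_of_subset_of_card_le (hRsub b hb) (hmin b (hCA hb))
    have hDx : ∀ a b, Relation.ReflTransGen D a b →
        Relation.ReflTransGen (fun a b => th < x a b) a b := by
      intro a b h
      induction h with
      | refl => exact Relation.ReflTransGen.refl
      | tail _ hbc ih => exact ih.tail hbc.2.2
    have hinner : ∀ b ∈ C, ∀ c ∈ C, G.Adj b c → th ≤ x b c := by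
      intro b hb c hc hadj
      have h1 : ¬ 1 - th < x c b := by
        intro h
        refine hnc c b h (hDx b c ?_)
        have : c ∈ R b := by rw [hReq b hb]; exact hc
        simp only [R, Finset.mem_filter] at this
        exact this.2
      have h2 := hx.2.2 b c hadj
      push Not at h1
      linarith
    have houter : ∀ b ∈ C, ∀ w ∈ A, w ∉ C → G.Adj w b → 1 - th ≤ x w b := by
      intro b hb w hw hwC hadj
      have h1 : ¬ th < x b w := by
        intro h
        apply hwC
        simp only [hC, R, Finset.mem_filter] at hb ⊢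
        exact ⟨hw, hb.2.tail ⟨hb.1, hw, h⟩⟩
      have h2 := hx.2.2 w b hadj
      push Not at h1
      linarith
    -- the best subset of `C`
    let dg : V → Finset V → ℕ := fun v T => #(T.filter fun u => G.Adj v u)
    let g : Finset V → ℤ := fun T => ∑ u ∈ T, ((2 * k - 1 : ℤ) - dg u T)
    obtain ⟨T, hTC, hTmax⟩ := Finset.exists_max_image C.powerset g ⟨∅, by simp⟩
    rw [Finset.mem_powerset] at hTC
    have hins : ∀ (T' : Finset V) (v : V), v ∉ T' →
        g (insert v T') = g T' + (2 * k - 1 : ℤ) - 2 * dg v T' := by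
      intro T' v hv
      have hdv : dg v (insert v T') = dg v T' := by
        simp only [dg]
        rw [Finset.filter_insert, if_neg (G.loopless.irrefl v)]
      have hdu : ∀ u ∈ T', (dg u (insert v T') : ℤ) = dg u T' + if G.Adj v u then 1 else 0 := by
        intro u _
        simp only [dg]
        rw [Finset.filter_insert]
        by_cases h : G.Adj u v
        · rw [if_pos h, if_pos h.symm, Finset.card_insert_of_notMem]
          · push_cast; ring
          · simp [hv]
        · rw [if_neg h, if_neg (fun h' => h h'.symm)]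
          simp
      have hs : ∑ u ∈ T', (if G.Adj v u then (1 : ℤ) else 0) = dg v T' := by
        simp only [dg]
        rw [Finset.sum_ite]
        simp
      simp only [g]
      rw [Finset.sum_insert hv, hdv]
      have : ∑ u ∈ T', ((2 * k - 1 : ℤ) - dg u (insert v T'))
          = ∑ u ∈ T', ((2 * k - 1 : ℤ) - dg u T') - ∑ u ∈ T', (if G.Adj v u then (1 : ℤ) else 0) := by
        rw [← Finset.sum_sub_distrib]
        refine Finset.sum_congr rfl fun u hu => ?_
        rw [hdu u hu]; ring
      rw [this, hs]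
      ring
    have hTin : ∀ v ∈ T, dg v T ≤ k - 1 := by
      intro v hv
      have h1 := hTmax (T.erase v) (by
        rw [Finset.mem_powerset]; exact (Finset.erase_subset _ _).trans hTC)
      have h2 := hins (T.erase v) v (Finset.notMem_erase v T)
      rw [Finset.insert_erase hv] at h2
      have h3 : dg v (T.erase v) = dg v T := by
        simp only [dg]
        congr 1
        ext u
        simp only [Finset.mem_filter, Finset.mem_erase]
        constructor
        · rintro ⟨⟨_, h⟩, h'⟩; exact ⟨h, h'⟩
        · rintro ⟨h, h'⟩; exact ⟨⟨h'.ne', h⟩, h'⟩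
      rw [h3] at h2
      omega
    have hTout : ∀ v ∈ C, v ∉ T → k ≤ dg v T := by
      intro v hvC hvT
      have h1 := hTmax (insert v T) (by
        rw [Finset.mem_powerset]; exact Finset.insert_subset hvC hTC)
      have h2 := hins T v hvT
      omega
    -- recurse
    set A' : Finset V := (A \ C).filter fun w => ∀ b ∈ T, ¬ G.Adj w b with hA'
    have hA'sub : A' ⊆ A := (Finset.filter_subset _ _).trans Finset.sdiff_subset
    have hcard : #A' ≤ N := by
      have h1 : #A' < #A := by
        apply Finset.card_lt_card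
        refine ⟨hA'sub, fun h => ?_⟩
        have := h ha0
        simp only [hA', Finset.mem_filter, Finset.mem_sdiff] at this
        exact this.1.2 ha0C
      omega
    obtain ⟨S', hS'A, hS'1, hS'2⟩ := ih A' hcard
    have hnoadj : ∀ w ∈ S', ∀ b ∈ T, ¬ G.Adj w b := by
      intro w hw
      have := hS'A hw
      simp only [hA', Finset.mem_filter] at this
      exact this.2
    refine ⟨T ∪ S', Finset.union_subset (hTC.trans hCA) (hS'A.trans hA'sub), ?_, ?_⟩
    · intro v hv Q hQ hadjQ
      rw [Finset.mem_union] at hv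
      rcases hv with hv | hv
      · have hsub : Q ⊆ T.filter fun u => G.Adj v u := by
          intro u hu
          rw [Finset.mem_filter]
          refine ⟨?_, hadjQ u hu⟩
          rcases Finset.mem_union.mp (hQ hu) with h | h
          · exact h
          · exact absurd (hadjQ u hu).symm (hnoadj u h v hv)
        exact (Finset.card_le_card hsub).trans (hTin v hv)
      · refine hS'1 v hv Q ?_ hadjQ
        intro u hu
        rcases Finset.mem_union.mp (hQ hu) with h | h
        · exact absurd (hadjQ u hu) (hnoadj v hv u h)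
        · exact h
    · intro v hvA hvS
      rw [Finset.mem_union, not_or] at hvS
      have hx0 := hx.1
      by_cases hvC : v ∈ C
      · have h1 := hTout v hvC hvS.1
        have h2 : (k : ℝ) * th ≤ ∑ u ∈ T.filter (fun u => G.Adj v u), x v u := by
          have h3 : ∑ _u ∈ T.filter (fun u => G.Adj v u), th
              ≤ ∑ u ∈ T.filter (fun u => G.Adj v u), x v u := by
            refine Finset.sum_le_sum fun u hu => ?_
            rw [Finset.mem_filter] at hu
            exact hinner v hvC u (hTC hu.1) hu.2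
          rw [Finset.sum_const, nsmul_eq_mul] at h3
          have hth0 : 0 ≤ th := by rw [hth]; positivity
          have h4 : (k : ℝ) ≤ (#(T.filter fun u => G.Adj v u) : ℝ) := by exact_mod_cast h1
          nlinarith
        have h5 : ∑ u ∈ T.filter (fun u => G.Adj v u), x v u ≤ ∑ u ∈ T ∪ S', x v u :=
          Finset.sum_le_sum_of_subset_of_nonneg
            ((Finset.filter_subset _ _).trans Finset.subset_union_left) fun u _ _ => hx0 v u
        have h6 : (k : ℝ) / (k + 1) = k * th := by rw [hth]; field_simp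
        linarith
      · by_cases hT : ∃ b ∈ T, G.Adj v b
        · obtain ⟨b, hb, hadj⟩ := hT
          have h1 := houter b (hTC hb) v hvA hvC hadj
          have h2 : x v b ≤ ∑ u ∈ T ∪ S', x v u :=
            Finset.single_le_sum (f := fun u => x v u) (fun u _ => hx0 v u)
              (Finset.mem_union_left _ hb)
          linarith
        · push Not at hT
          have hvA' : v ∈ A' := by
            simp only [hA', Finset.mem_filter, Finset.mem_sdiff]
            exact ⟨⟨hvA, hvC⟩, hT⟩
          have h1 := hS'2 v hvA' hvS.2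
          have h2 : ∑ u ∈ S', x v u ≤ ∑ u ∈ T ∪ S', x v u :=
            Finset.sum_le_sum_of_subset_of_nonneg Finset.subset_union_right fun u _ _ => hx0 v u
          linarith

end Orient

section Count

set_option linter.unusedSectionVars false

variable {V : Type} [Fintype V] [DecidableEq V]

open Classical in
lemma two_edges (K : SimpleGraph V) :
    2 * (K.edgeSet.ncard : ℝ) = ∑ u, ∑ v, if K.Adj u v then 1 else 0 := by
  have h1 : K.edgeSet.ncard = #K.edgeFinset := by
    rw [SimpleGraph.edgeFinset, Set.ncard_eq_toFinset_card']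
  have h2 := K.sum_degrees_eq_twice_card_edges
  have h3 : ∀ u, (K.degree u : ℝ) = ∑ v, if K.Adj u v then 1 else 0 := by
    intro u
    rw [← SimpleGraph.card_neighborFinset_eq_degree, SimpleGraph.neighborFinset_eq_filter]
    rw [Finset.sum_ite]
    simp
  rw [h1]
  have h4 : (2 : ℝ) * (#K.edgeFinset : ℝ) = ∑ v, (K.degree v : ℝ) := by
    exact_mod_cast h2.symm
  rw [h4]
  exact Finset.sum_congr rfl fun u _ => h3 u

lemma mad_set_bdd (F : SimpleGraph V) :
    BddAbove {x : ℝ | ∃ H : F.Subgraph, H.verts.Nonempty ∧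
      x = 2 * (H.edgeSet.ncard : ℝ) / (H.verts.ncard : ℝ)} := by
  refine ⟨2 * (F.edgeSet.ncard : ℝ), ?_⟩
  rintro x ⟨H, hH, rfl⟩
  have h1 : (1 : ℝ) ≤ (H.verts.ncard : ℝ) := by
    have : 0 < H.verts.ncard := (Set.ncard_pos (Set.toFinite _)).mpr hH
    exact_mod_cast this
  have h2 : (H.edgeSet.ncard : ℝ) ≤ (F.edgeSet.ncard : ℝ) := by
    exact_mod_cast Set.ncard_le_ncard H.edgeSet_subset (Set.toFinite _)
  rw [div_le_iff₀ (by linarith)]
  have h3 : (0 : ℝ) ≤ (F.edgeSet.ncard : ℝ) := by positivity
  nlinarith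

lemma mad_nonneg (F : SimpleGraph V) : 0 ≤ mad F := by
  apply Real.sSup_nonneg
  rintro x ⟨H, _, rfl⟩
  positivity

open Classical in
/-- Twice the flow inside `W` is twice the number of edges inside `W`. -/
lemma two_flow {F : SimpleGraph V} {x : V → V → ℝ} (hx : x ∈ Ori F) (W : Finset V) :
    2 * ∑ u ∈ W, ∑ v ∈ W, x u v = ∑ u ∈ W, ∑ v ∈ W, if F.Adj u v then (1 : ℝ) else 0 := by
  have h1 : ∑ u ∈ W, ∑ v ∈ W, x u v = ∑ u ∈ W, ∑ v ∈ W, x v u := by
    rw [Finset.sum_comm]
  have h2 : ∀ u v, x u v + x v u = if F.Adj u v then (1 : ℝ) else 0 := by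
    intro u v
    by_cases h : F.Adj u v
    · rw [if_pos h]; exact hx.2.2 u v h
    · rw [if_neg h, hx.2.1 u v h, hx.2.1 v u (fun h' => h h'.symm)]; norm_num
  calc 2 * ∑ u ∈ W, ∑ v ∈ W, x u v
      = ∑ u ∈ W, ∑ v ∈ W, x u v + ∑ u ∈ W, ∑ v ∈ W, x v u := by rw [← h1]; ring
    _ = ∑ u ∈ W, ∑ v ∈ W, (x u v + x v u) := by
        rw [← Finset.sum_add_distrib]
        exact Finset.sum_congr rfl fun u _ => by rw [← Finset.sum_add_distrib]
    _ = _ := Finset.sum_congr rfl fun u _ => Finset.sum_congr rfl fun v _ => h2 u v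

open Classical in
lemma flow_le_mad {F : SimpleGraph V} (W : Finset V) (x : V → V → ℝ) (hx : x ∈ Ori F) :
    ∑ u ∈ W, ∑ v ∈ W, x u v ≤ mad F / 2 * (#W : ℝ) := by
  by_cases hW : W = ∅
  · subst hW; simp
  have hWne : W.Nonempty := Finset.nonempty_iff_ne_empty.mpr hW
  have hpos : (0 : ℝ) < #W := by exact_mod_cast Finset.card_pos.mpr hWne
  let H : F.Subgraph := (⊤ : F.Subgraph).induce (W : Set V)
  have hv : H.verts = (W : Set V) := rfl
  have hle : 2 * (H.edgeSet.ncard : ℝ) / (H.verts.ncard : ℝ) ≤ mad F :=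
    le_csSup (mad_set_bdd F) ⟨H, by rw [hv]; exact_mod_cast hWne, rfl⟩
  have he : 2 * (H.edgeSet.ncard : ℝ) = ∑ u ∈ W, ∑ v ∈ W, if F.Adj u v then (1 : ℝ) else 0 := by
    rw [← SimpleGraph.Subgraph.edgeSet_spanningCoe, two_edges]
    have h1 : ∀ u v, (if H.spanningCoe.Adj u v then (1 : ℝ) else 0)
        = if u ∈ W then (if v ∈ W then (if F.Adj u v then (1 : ℝ) else 0) else 0) else 0 := by
      intro u v
      by_cases hu : u ∈ W <;> by_cases hv : v ∈ W <;> by_cases hF : F.Adj u v <;>
        simp [H, hu, hv, hF]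
    rw [Finset.sum_congr rfl fun u _ => Finset.sum_congr rfl fun v _ => h1 u v]
    rw [← Finset.sum_subset (Finset.subset_univ W)]
    · refine Finset.sum_congr rfl fun u hu => ?_
      rw [← Finset.sum_subset (Finset.subset_univ W)]
      · refine Finset.sum_congr rfl fun v hv => ?_
        rw [if_pos hu, if_pos hv]
      · intro v _ hv
        rw [if_pos hu, if_neg hv]
    · intro u _ hu
      simp [hu]
  rw [he, hv, Set.ncard_coe_finset, ← two_flow hx W, div_le_iff₀ hpos] at hle
  linarith

open Classical in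
lemma edges_le_flow {F : SimpleGraph V} (x : V → V → ℝ) (hx : x ∈ Ori F) (H : F.Subgraph)
    (W : Finset V) (hW : ∀ v ∈ H.verts, v ∈ W) :
    (H.edgeSet.ncard : ℝ) ≤ ∑ u ∈ W, ∑ v ∈ W, x u v := by
  have h0 : 2 * (H.edgeSet.ncard : ℝ) ≤ 2 * ∑ u ∈ W, ∑ v ∈ W, x u v := by
    rw [← SimpleGraph.Subgraph.edgeSet_spanningCoe, two_edges, two_flow hx W]
    rw [← Finset.sum_subset (Finset.subset_univ W)]
    · refine Finset.sum_le_sum fun u hu => ?_
      rw [← Finset.sum_subset (Finset.subset_univ W)]
      · refine Finset.sum_le_sum fun v hv => ?_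
        by_cases h : H.spanningCoe.Adj u v
        · have h' : F.Adj u v := H.adj_sub h
          rw [if_pos h, if_pos h']
        · rw [if_neg h]; split_ifs <;> norm_num
      · intro v _ hv
        rw [if_neg]
        intro h
        have h' : H.spanningCoe.Adj v u := SimpleGraph.Adj.symm h
        exact hv (hW v (H.edge_vert h'))
    · intro u _ hu
      refine Finset.sum_eq_zero fun v _ => ?_
      rw [if_neg]
      intro h
      exact hu (hW u (H.edge_vert h))
  linarith

end Count

/-- Deleting a suitable set whose induced subgraph has maximum degree below `k` lowers the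
maximum average degree by `2 k / (k + 1)`. -/
lemma removal_mad {n : ℕ} (F : SimpleGraph (Fin n)) (k : ℕ) (hk : 1 ≤ k) :
    ∃ S : Finset (Fin n),
      (∀ v ∈ S, ∀ T ⊆ S, (∀ u ∈ T, F.Adj v u) → #T ≤ k - 1) ∧
      ∀ (H : F.Subgraph), H.verts.Nonempty → (∀ v ∈ H.verts, v ∉ S) →
        2 * (H.edgeSet.ncard : ℝ) / (H.verts.ncard : ℝ) ≤ mad F - 2 * k / (k + 1) := by
  classical
  have hk' : (1 : ℝ) ≤ k := by exact_mod_cast hk
  obtain ⟨x, hx, hxo, hnc⟩ := exists_ori_acyclic F (mad F / 2) (1 / ((k : ℝ) + 1))
    (by positivity) (by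
      rw [div_le_div_iff₀ (by linarith) (by norm_num)]
      linarith)
    (exists_ori_out F (mad F / 2) fun W x hx => flow_le_mad W x hx)
  obtain ⟨S, -, hS1, hS2⟩ := removal F k hk _ rfl x hx hnc _ Finset.univ le_rfl
  refine ⟨S, hS1, ?_⟩
  intro H hH hHS
  set W : Finset (Fin n) := H.verts.toFinset with hW
  have hWv : ∀ v, v ∈ W ↔ v ∈ H.verts := fun v => by simp [hW]
  have hcard : H.verts.ncard = #W := Set.ncard_eq_toFinset_card' _
  have hpos : (0 : ℝ) < #W := by
    obtain ⟨v, hv⟩ := hH
    exact_mod_cast Finset.card_pos.mpr ⟨v, (hWv v).mpr hv⟩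
  have h1 := edges_le_flow x hx H W fun v hv => (hWv v).mpr hv
  have h2 : ∀ u ∈ W, ∑ v ∈ W, x u v ≤ mad F / 2 - (k : ℝ) / (k + 1) := by
    intro u hu
    have huS : u ∉ S := hHS u ((hWv u).mp hu)
    have h3 := hS2 u (Finset.mem_univ _) huS
    have hdis : Disjoint W S := by
      rw [Finset.disjoint_left]
      intro v hv
      exact hHS v ((hWv v).mp hv)
    have h4 : ∑ v ∈ W, x u v + ∑ v ∈ S, x u v ≤ ∑ v, x u v := by
      rw [← Finset.sum_union hdis]
      exact Finset.sum_le_sum_of_subset_of_nonneg (Finset.subset_univ _) fun v _ _ => hx.1 u v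
    have h5 := hxo u
    linarith
  have h6 : ∑ u ∈ W, ∑ v ∈ W, x u v ≤ (#W : ℝ) * (mad F / 2 - (k : ℝ) / (k + 1)) := by
    have := Finset.sum_le_sum h2
    rw [Finset.sum_const, nsmul_eq_mul] at this
    exact this
  rw [hcard, div_le_iff₀ hpos]
  have h7 : 2 * (k : ℝ) / (k + 1) = 2 * ((k : ℝ) / (k + 1)) := by ring
  rw [h7]
  nlinarith

lemma arrows_top (k r : ℕ) : Arrows (⊤ : SimpleGraph (Fin ((r + 1) * k + 1))) (star k) (r + 1) := by
  intro c
  obtain ⟨y, hy⟩ := Fintype.exists_lt_card_fiber_of_mul_lt_card (f := c) (n := k) (by simp)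
  have hne : Nonempty (Fin (k + 1) ↪ {i // i ∈ (Finset.univ.filter fun i => c i = y)}) := by
    apply Function.Embedding.nonempty_of_card_le
    simp only [Fintype.card_fin, Fintype.card_coe]
    exact hy
  obtain ⟨e⟩ := hne
  refine ⟨fun i => (e i).1, fun i j h => e.injective (Subtype.ext h), ?_, ?_⟩
  · intro a b hab
    rw [SimpleGraph.top_adj]
    intro h
    exact hab.1 (e.injective (Subtype.ext h))
  · intro a b
    have h1 := (Finset.mem_filter.mp (e a).2).2
    have h2 := (Finset.mem_filter.mp (e b).2).2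
    rw [h1, h2]

/-- **Theorem.** For all `k ≥ 1` and `r`, `m_cr(S_k, r + 1) ≥ m_cr(S_k, r) + 2 k / (k + 1)`. -/
theorem result (k r : ℕ) (hk : 1 ≤ k) :
    mcr (star k) r + 2 * k / (k + 1) ≤ mcr (star k) (r + 1) := by
  classical
  refine le_csInf ⟨_, _, _, arrows_top k r, rfl⟩ ?_
  rintro _ ⟨n, F, hF, rfl⟩
  obtain ⟨S, hS1, hS2⟩ := removal_mad F k hk
  set m : ℕ := Fintype.card {v : Fin n // v ∉ S} with hm
  let e : Fin m ≃ {v : Fin n // v ∉ S} := (Fintype.equivFin _).symm
  let F' : SimpleGraph (Fin m) := F.comap fun i => (e i).1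
  have hF' : Arrows F' (star k) r := by
    intro c'
    let c : Fin n → Fin (r + 1) := fun v =>
      if h : v ∉ S then (c' (e.symm ⟨v, h⟩)).castSucc else Fin.last r
    obtain ⟨f, hf1, hf2, hf3⟩ := hF c
    by_cases h0 : f 0 ∈ S
    · exfalso
      have hall : ∀ i, f i ∈ S := by
        intro i
        by_contra hi
        have h1 := hf3 i 0
        simp only [c] at h1
        rw [dif_pos hi, dif_neg (not_not.mpr h0)] at h1
        exact (Fin.castSucc_lt_last _).ne h1
      have h2 := hS1 (f 0) h0 ((Finset.univ.erase (0 : Fin (k + 1))).image f)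
        (by intro v hv
            obtain ⟨i, _, rfl⟩ := Finset.mem_image.mp hv
            exact hall i)
        (by intro v hv
            obtain ⟨i, hi, rfl⟩ := Finset.mem_image.mp hv
            exact hf2 0 i ⟨(Finset.ne_of_mem_erase hi).symm, Or.inl rfl⟩)
      rw [Finset.card_image_of_injective _ hf1, Finset.card_erase_of_mem (Finset.mem_univ _),
        Finset.card_univ, Fintype.card_fin] at h2
      omega
    · have hall : ∀ i, f i ∉ S := by
        intro i hi
        have h1 := hf3 0 i
        simp only [c] at h1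
        rw [dif_pos h0, dif_neg (not_not.mpr hi)] at h1
        exact (Fin.castSucc_lt_last _).ne h1
      refine ⟨fun i => e.symm ⟨f i, hall i⟩, ?_, ?_, ?_⟩
      · intro i j hij
        have := e.symm.injective hij
        exact hf1 (Subtype.ext_iff.mp this)
      · intro a b hab
        simp only [F', SimpleGraph.comap_adj, Equiv.apply_symm_apply]
        exact hf2 a b hab
      · intro a b
        have h1 := hf3 a b
        simp only [c] at h1
        rw [dif_pos (hall a), dif_pos (hall b)] at h1
        exact Fin.castSucc_injective _ h1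
  have hm0 : mad F' ≤ mad F - 2 * k / (k + 1) := by
    have hne : Nonempty (Fin m) := by
      by_contra hem
      rw [not_nonempty_iff] at hem
      obtain ⟨f, -⟩ := hF' fun i => (hem.false i).elim
      exact hem.false (f 0)
    obtain ⟨i0⟩ := hne
    apply csSup_le
    · exact ⟨_, ⊤, ⟨i0, trivial⟩, rfl⟩
    · rintro _ ⟨H, hH, rfl⟩
      -- push the subgraph forward
      let φ : F' ↪g F := ⟨⟨fun i => (e i).1, fun i j h => e.injective (Subtype.ext h)⟩, Iff.rfl⟩
      let H2 : F.Subgraph := H.map φ.toHom
      have hv : H2.verts = (fun i => (e i).1) '' H.verts := rfl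
      have hinj : Function.Injective fun i : Fin m => (e i).1 :=
        fun i j h => e.injective (Subtype.ext h)
      have hvc : H2.verts.ncard = H.verts.ncard := by
        rw [hv]; exact Set.ncard_image_of_injective _ hinj
      have hec : H2.edgeSet.ncard = H.edgeSet.ncard := by
        have h1 : H2.edgeSet = Sym2.map (fun i => (e i).1) '' H.edgeSet :=
          SimpleGraph.Subgraph.edgeSet_map _ _
        rw [h1]; exact Set.ncard_image_of_injective _ (Sym2.map.injective hinj)
      have h3 := hS2 H2 (by rw [hv]; exact hH.image _) (by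
        intro v hvv
        rw [hv] at hvv
        obtain ⟨i, _, rfl⟩ := hvv
        exact (e i).2)
      rw [hvc, hec] at h3
      exact h3
  have hle : mcr (star k) r ≤ mad F' := by
    apply csInf_le
    · refine ⟨0, ?_⟩
      rintro _ ⟨_, F'', _, rfl⟩
      exact mad_nonneg F''
    · exact ⟨m, F', hF', rfl⟩
  linarith

end Pool.Agent.Results.MP_cb1d9b_co.StarRecursion
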